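import Mathlib

set_option autoImplicit false

open Finset

namespace RIPPhase

lemma exists_tuple_list {s : ℕ} : ∀ (D : ℕ) (l : List (Fin s)), l.length ≤ D →
    ∃ g : Fin D → Option (Fin s), ∀ y : Fin s → ℝ, ∏ i, (g i).elim 1 y = (l.map y).prod := by
  intro D
  induction D with
  | zero =>
    intro l hl
    have : l = [] := List.length_eq_zero_iff.1 (by omega)
    subst this
    exact ⟨fun i => i.elim0, fun y => by simp⟩
  | succ D ih =>
    intro l hl
    rcases l with _ | ⟨a, l⟩
    · exact ⟨fun _ => none, fun y => by simp⟩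
    · obtain ⟨g, hg⟩ := ih l (by simpa using hl)
      refine ⟨Fin.cons (some a) g, fun y => ?_⟩
      rw [Fin.prod_univ_succ]
      simp [hg y]

lemma exists_tuple {s D : ℕ} (m : Fin s →₀ ℕ) (hm : (m.sum fun _ e => e) ≤ D) :
    ∃ g : Fin D → Option (Fin s), ∀ y : Fin s → ℝ,
      ∏ i, (g i).elim 1 y = ∏ j, y j ^ m j := by
  classical
  obtain ⟨g, hg⟩ := exists_tuple_list D (Finsupp.toMultiset m).toList (by
    rw [Multiset.length_toList, Finsupp.card_toMultiset]
    exact hm)
  refine ⟨g, fun y => ?_⟩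
  rw [hg y]
  have h1 : (((Finsupp.toMultiset m).toList).map y).prod = ((Finsupp.toMultiset m).map y).prod := by
    conv_rhs => rw [← Multiset.coe_toList (Finsupp.toMultiset m)]
    rw [Multiset.map_coe, Multiset.prod_coe]
  rw [h1, Finset.prod_multiset_map_count, Finsupp.toFinset_toMultiset]
  simp_rw [Finsupp.count_toMultiset]
  refine prod_subset (subset_univ _) fun j _ hj => ?_
  rw [Finsupp.notMem_support_iff.1 hj, pow_zero]

/-- B1. Every real polynomial in `s` variables of total degree `≤ D` is a real combination of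
the products of `D` factors from `1, y_1, …, y_s`. -/
theorem eval_eq {s D : ℕ} (Q : MvPolynomial (Fin s) ℝ) (hQ : Q.totalDegree ≤ D) :
    ∃ c : (Fin D → Option (Fin s)) → ℝ, ∀ y : Fin s → ℝ,
      MvPolynomial.eval y Q = ∑ g, c g * ∏ i, (g i).elim 1 y := by
  classical
  have h : ∀ m ∈ Q.support, ∃ g : Fin D → Option (Fin s), ∀ y : Fin s → ℝ,
      ∏ i, (g i).elim 1 y = ∏ j, y j ^ m j := fun m hm =>
    exists_tuple m ((MvPolynomial.le_totalDegree hm).trans hQ)
  choose! G hG using h
  refine ⟨fun g => ∑ m ∈ Q.support.filter (fun m => G m = g), Q.coeff m, fun y => ?_⟩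
  rw [MvPolynomial.eval_eq']
  have h1 : ∀ g : Fin D → Option (Fin s),
      (∑ m ∈ Q.support.filter (fun m => G m = g), Q.coeff m) * ∏ i, (g i).elim 1 y
        = ∑ m ∈ Q.support.filter (fun m => G m = g), Q.coeff m * ∏ j, y j ^ m j := by
    intro g
    rw [sum_mul]
    refine sum_congr rfl fun m hm => ?_
    rw [mem_filter] at hm
    rw [← hG m hm.1 y, hm.2]
  simp_rw [h1]
  exact (sum_fiberwise _ _ _).symm

end RIPPhase
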