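import Pool.Agent.Lib.RIPPhase.Master
import Pool.Agent.Lib.RIPPhase.Poly

set_option autoImplicit false

open Finset

namespace RIPPhase

lemma re_e_mul_conj (t t' : ℝ) : (e t * (starRingEnd ℂ) (e t')).re =
    Real.cos (2 * Real.pi * (t - t')) := by
  unfold e
  rw [← Complex.exp_conj, map_mul, Complex.conj_ofReal, Complex.conj_I, ← Complex.exp_add]
  have h2 : (((2 * Real.pi * t : ℝ) : ℂ) * Complex.I + ((2 * Real.pi * t' : ℝ) : ℂ) * -Complex.I : ℂ)
      = ((2 * Real.pi * (t - t') : ℝ) : ℂ) * Complex.I := by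
    push_cast; ring
  rw [h2, Complex.exp_ofReal_mul_I_re]

lemma cos_ge_half (n : ℤ) (δ : ℝ) (hδ : |δ| ≤ 1 / 6) :
    1 / 2 ≤ Real.cos (2 * Real.pi * (n + δ)) := by
  have h1 : 2 * Real.pi * (n + δ) = 2 * Real.pi * δ + n * (2 * Real.pi) := by ring
  rw [h1, Real.cos_add_int_mul_two_pi, ← Real.cos_abs, ← Real.cos_pi_div_three]
  have hpi := Real.pi_pos
  apply Real.cos_le_cos_of_nonneg_of_le_pi (abs_nonneg _)
  · linarith
  · rw [abs_mul, abs_of_pos (by positivity : (0 : ℝ) < 2 * Real.pi)]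
    nlinarith

/-- the local pattern lemma -/
lemma local_pattern {R C : Type*} [Fintype R] [Fintype C] {m : ℕ} (hm : 1 ≤ m)
    (q : R → C → ℝ) (hA : RIP m (fun i j => e (q i j))) (Y : Finset R) (S : Finset C)
    (hS : S.card = m)
    (h : ∀ i ∈ Y, ∀ j ∈ S, ∀ j' ∈ S, ∃ n : ℤ, ∃ δ : ℝ, |δ| ≤ 1 / 6 ∧ q i j - q i j' = n + δ) :
    m * Y.card ≤ 8 * Fintype.card R := by
  classical
  obtain ⟨s, hs, hA⟩ := hA
  -- a single column
  have hne : S.Nonempty := by rw [← card_pos, hS]; exact hm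
  obtain ⟨j0, hj0⟩ := hne
  have hcard1 : {j | (Pi.single j0 (1 : ℂ) : C → ℂ) j ≠ 0}.ncard ≤ m := by
    have : {j | (Pi.single j0 (1 : ℂ) : C → ℂ) j ≠ 0} ⊆ {j0} := by
      intro j hj
      by_contra hne
      exact hj (by simp [Set.mem_singleton_iff.not.1 hne])
    calc _ ≤ ({j0} : Set C).ncard := Set.ncard_le_ncard this (Set.finite_singleton _)
      _ = 1 := Set.ncard_singleton _
      _ ≤ m := hm
  have h1 := (hA (Pi.single j0 1) hcard1).1
  have e1 : ∑ j', ‖(Pi.single j0 (1 : ℂ) : C → ℂ) j'‖ ^ 2 = 1 := by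
    rw [sum_eq_single j0]
    · simp
    · intro b _ hb
      simp [hb]
    · simp
  have e2 : ∀ i, ∑ j', e (q i j') * (Pi.single j0 (1 : ℂ) : C → ℂ) j' = e (q i j0) := by
    intro i
    rw [sum_eq_single j0]
    · simp
    · intro b _ hb
      simp [hb]
    · simp
  simp_rw [e2, norm_e] at h1
  rw [e1] at h1
  simp only [one_pow, sum_const, card_univ, nsmul_eq_mul, mul_one] at h1
  -- the indicator of S
  set x : C → ℂ := fun j => if j ∈ S then 1 else 0 with hx
  have hcard2 : {j | x j ≠ 0}.ncard ≤ m := by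
    have : {j | x j ≠ 0} = (S : Set C) := by
      ext j
      simp [hx]
    rw [this, Set.ncard_coe_finset, hS]
  have h2 := (hA x hcard2).2
  have e3 : ∑ j, ‖x j‖ ^ 2 = m := by
    have : ∀ j, ‖x j‖ ^ 2 = if j ∈ S then (1 : ℝ) else 0 := by
      intro j
      simp only [hx]
      split_ifs <;> simp
    simp_rw [this]
    rw [sum_ite_mem, univ_inter, sum_const, hS, nsmul_eq_mul, mul_one]
  have e4 : ∀ i, ∑ j, e (q i j) * x j = ∑ j ∈ S, e (q i j) := by
    intro i
    simp only [hx, mul_ite, mul_one, mul_zero]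
    rw [sum_ite_mem, univ_inter]
  simp_rw [e4] at h2
  rw [e3] at h2
  have h3 : ∀ i ∈ Y, (m : ℝ) ^ 2 / 2 ≤ ‖∑ j ∈ S, e (q i j)‖ ^ 2 := by
    intro i hi
    have h4 : ‖∑ j ∈ S, e (q i j)‖ ^ 2
        = ∑ j ∈ S, ∑ j' ∈ S, (e (q i j) * (starRingEnd ℂ) (e (q i j'))).re := by
      rw [← Complex.normSq_eq_norm_sq]
      have h5 : ((Complex.normSq (∑ j ∈ S, e (q i j)) : ℝ) : ℂ)
          = ∑ j ∈ S, ∑ j' ∈ S, e (q i j) * (starRingEnd ℂ) (e (q i j')) := by
        rw [← Complex.mul_conj, map_sum, sum_mul_sum]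
      have h6 := congrArg Complex.re h5
      rw [Complex.ofReal_re] at h6
      rw [h6, Complex.re_sum]
      refine sum_congr rfl fun j _ => ?_
      rw [Complex.re_sum]
    rw [h4]
    have h5 : ∑ j ∈ S, ∑ j' ∈ S, (1 / 2 : ℝ)
        ≤ ∑ j ∈ S, ∑ j' ∈ S, (e (q i j) * (starRingEnd ℂ) (e (q i j'))).re := by
      refine sum_le_sum fun j hj => sum_le_sum fun j' hj' => ?_
      rw [re_e_mul_conj]
      obtain ⟨n, δ, hδ, hq⟩ := h i hi j hj j' hj'
      rw [hq]
      exact cos_ge_half n δ hδ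
    rw [sum_const, sum_const, hS, nsmul_eq_mul, nsmul_eq_mul] at h5
    refine le_trans (le_of_eq ?_) h5
    ring
  have h4 : (Y.card : ℝ) * ((m : ℝ) ^ 2 / 2) ≤ ∑ i, ‖∑ j ∈ S, e (q i j)‖ ^ 2 := by
    calc (Y.card : ℝ) * ((m : ℝ) ^ 2 / 2) = ∑ i ∈ Y, (m : ℝ) ^ 2 / 2 := by
          rw [sum_const, nsmul_eq_mul]
      _ ≤ ∑ i ∈ Y, ‖∑ j ∈ S, e (q i j)‖ ^ 2 := sum_le_sum h3
      _ ≤ ∑ i, ‖∑ j ∈ S, e (q i j)‖ ^ 2 :=
          sum_le_sum_of_subset_of_nonneg (subset_univ _) fun i _ _ => by positivity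
  have hm0 : (0 : ℝ) < m := by exact_mod_cast hm
  have hs2 : 0 < s ^ 2 := by positivity
  -- s² |Y| m² / 2 ≤ 4 m and 1 ≤ s² |R|
  have h5 : s ^ 2 * ((Y.card : ℝ) * ((m : ℝ) ^ 2 / 2)) ≤ 4 * m :=
    (mul_le_mul_of_nonneg_left h4 hs2.le).trans h2
  have h6 : s ^ 2 * ((Y.card : ℝ) * m) ≤ 8 := by
    have : (s ^ 2 * ((Y.card : ℝ) * m)) * m ≤ 8 * m := by nlinarith
    exact le_of_mul_le_mul_right this hm0
  have h7 : s ^ 2 * ((Y.card : ℝ) * m) ≤ s ^ 2 * (8 * Fintype.card R) := by nlinarith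
  have h8 := le_of_mul_le_mul_left h7 hs2
  have h9 : ((m * Y.card : ℕ) : ℝ) ≤ ((8 * Fintype.card R : ℕ) : ℝ) := by
    push_cast
    linarith
  exact_mod_cast h9

/-- the value of a monomial (tuple) at a point -/
lemma mono_bounds {s D w : ℕ} (hw : 1 ≤ w) (f : Fin D → Option (Fin s)) (y : Fin s → ℕ)
    (hy : ∀ j, y j ≤ w) :
    0 ≤ ∏ i, (f i).elim (1 : ℝ) (fun j => (y j : ℝ)) ∧
      ∏ i, (f i).elim (1 : ℝ) (fun j => (y j : ℝ)) ≤ (w : ℝ) ^ D := by
  have h : ∀ i, 0 ≤ (f i).elim (1 : ℝ) (fun j => (y j : ℝ)) ∧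
      (f i).elim (1 : ℝ) (fun j => (y j : ℝ)) ≤ w := by
    intro i
    rcases f i with _ | j
    · exact ⟨zero_le_one, by simpa using (by exact_mod_cast hw : (1 : ℝ) ≤ w)⟩
    · exact ⟨by simp, by simpa using (by exact_mod_cast hy j : (y j : ℝ) ≤ w)⟩
  refine ⟨prod_nonneg fun i _ => (h i).1, ?_⟩
  calc ∏ i, (f i).elim (1 : ℝ) (fun j => (y j : ℝ)) ≤ ∏ _i : Fin D, (w : ℝ) :=
        prod_le_prod (fun i _ => (h i).1) fun i _ => (h i).2
    _ = (w : ℝ) ^ D := by rw [prod_const, card_univ, Fintype.card_fin]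

lemma mono_int {s D : ℕ} (f : Fin D → Option (Fin s)) (y : Fin s → ℕ) :
    ∃ n : ℤ, ∏ i, (f i).elim (1 : ℝ) (fun j => (y j : ℝ)) = n := by
  refine ⟨∏ i, (f i).elim (1 : ℤ) (fun j => (y j : ℤ)), ?_⟩
  push_cast
  refine prod_congr rfl fun i _ => ?_
  rcases f i with _ | j <;> simp

theorem core_B {s N D d m u w : ℕ} (hm : 1 ≤ m) (hu : u ≤ s) (hw : 1 ≤ w) (hwN : w ≤ N)
    (c : Fin d → (Fin D → Option (Fin s)) → ℝ)
    (hA : RIP m (fun (y : Fin s → Fin N) (a : Fin d) =>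
      e (∑ f, c a f * ∏ i, (f i).elim 1 (fun j => ((y j : ℕ) : ℝ)))))
    (hd : m * (6 * (u + 1) ^ D * w ^ D) ^ ((u + 1) ^ D) ≤ d) :
    m * w ^ u ≤ 8 * N ^ s := by
  classical
  -- the tuples that matter
  set G : Finset (Option (Fin s)) := univ.filter (fun o => ∀ j, o = some j → (j : ℕ) < u) with hG
  have hGc : G.card = u + 1 := by
    have h1 : G = insert none ((univ.filter (fun j : Fin s => (j : ℕ) < u)).map
        Function.Embedding.some) := by
      ext o
      rcases o with _ | j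
      · simp [hG]
      · simp [hG]
    rw [h1, card_insert_of_notMem (by simp), card_map]
    congr 1
    have h2 : (univ.filter (fun j : Fin s => (j : ℕ) < u)).card = u := by
      have := Fin.card_filter_val_lt (n := s) (m := u)
      simpa [min_eq_right hu] using this
    exact h2
  set F : Finset (Fin D → Option (Fin s)) := Fintype.piFinset (fun _ : Fin D => G) with hF
  have hFc : F.card = (u + 1) ^ D := by
    rw [hF, Fintype.card_piFinset_const, hGc]
  set B : ℕ := (u + 1) ^ D with hB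
  set L : ℕ := 6 * B * w ^ D with hL
  have hBpos : 0 < B := by positivity
  have hLpos : 0 < L := by positivity
  have hLr : (0 : ℝ) < L := by exact_mod_cast hLpos
  -- cells
  have hcell : ∀ t : ℝ, ⌊Int.fract t * L⌋₊ < L := by
    intro t
    rw [Nat.floor_lt (by have := Int.fract_nonneg t; positivity)]
    have := Int.fract_lt_one t
    nlinarith
  set cell : Fin d → (↥F → Fin L) := fun a f => ⟨⌊Int.fract (c a f.1) * L⌋₊, hcell _⟩ with hcelld
  have hcells : Fintype.card (↥F → Fin L) = L ^ B := by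
    rw [Fintype.card_fun, Fintype.card_coe, hFc, Fintype.card_fin]
  obtain ⟨v, -, hv⟩ := exists_le_card_fiber_of_mul_le_card_of_maps_to
    (s := (univ : Finset (Fin d))) (t := (univ : Finset (↥F → Fin L))) (f := cell) (n := m)
    (fun a _ => mem_univ _) ⟨fun _ => ⟨0, hLpos⟩, mem_univ _⟩
    (by rw [card_univ, hcells, card_univ, Fintype.card_fin]; linarith [mul_comm (L ^ B) m])
  obtain ⟨S, hSv, hSc⟩ := exists_subset_card_eq hv
  -- the sub-box
  set g : Fin s → ℕ := fun j => if (j : ℕ) < u then w else 1 with hg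
  set Y : Finset (Fin s → Fin N) :=
    Fintype.piFinset (fun j => univ.filter (fun t : Fin N => (t : ℕ) < g j)) with hY
  have hgN : ∀ j, g j ≤ N := by
    intro j
    simp only [hg]
    split_ifs
    · exact hwN
    · omega
  have hYc : Y.card = w ^ u := by
    rw [hY, Fintype.card_piFinset]
    have h1 : ∀ j : Fin s, (univ.filter (fun t : Fin N => (t : ℕ) < g j)).card = g j := by
      intro j
      have := Fin.card_filter_val_lt (n := N) (m := g j)
      simpa [min_eq_right (hgN j)] using this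
    simp_rw [h1]
    simp only [hg]
    rw [prod_ite, prod_const, prod_const_one, mul_one]
    congr 1
    have := Fin.card_filter_val_lt (n := s) (m := u)
    simpa [min_eq_right hu] using this
  have key := local_pattern hm (fun (y : Fin s → Fin N) (a : Fin d) =>
    ∑ f, c a f * ∏ i, (f i).elim 1 (fun j => ((y j : ℕ) : ℝ))) hA Y S hSc ?_
  · rw [hYc, Fintype.card_fun, Fintype.card_fin, Fintype.card_fin] at key
    exact key
  intro y hy a ha a' ha'
  have hy' : ∀ j, ((y j : ℕ) < g j) := by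
    intro j
    have := (Fintype.mem_piFinset.1 hy) j
    simpa using this
  have hyw : ∀ j, (y j : ℕ) ≤ w := by
    intro j
    have := hy' j
    simp only [hg] at this
    split_ifs at this <;> omega
  have hac : cell a = v := (mem_filter.1 (hSv ha)).2
  have hac' : cell a' = v := (mem_filter.1 (hSv ha')).2
  -- difference of coefficients
  have hdiff : ∀ f ∈ F, ∃ n : ℤ, ∃ δ : ℝ, |δ| ≤ 1 / L ∧ c a f - c a' f = n + δ := by
    intro f hf
    refine ⟨⌊c a f⌋ - ⌊c a' f⌋, Int.fract (c a f) - Int.fract (c a' f), ?_, ?_⟩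
    · have h1 : ⌊Int.fract (c a f) * L⌋₊ = ⌊Int.fract (c a' f) * L⌋₊ := by
        have h2 := congrFun (hac.trans hac'.symm) ⟨f, hf⟩
        simpa [hcelld] using h2
      have h3 := Nat.floor_le (a := Int.fract (c a f) * L)
        (by have := Int.fract_nonneg (c a f); positivity)
      have h4 := Nat.lt_floor_add_one (Int.fract (c a f) * L)
      have h5 := Nat.floor_le (a := Int.fract (c a' f) * L)
        (by have := Int.fract_nonneg (c a' f); positivity)
      have h6 := Nat.lt_floor_add_one (Int.fract (c a' f) * L)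
      rw [h1] at h3 h4
      rw [abs_le]
      constructor
      · rw [neg_le_iff_add_nonneg, ← sub_nonneg]
        have : -1 ≤ (Int.fract (c a f) - Int.fract (c a' f)) * L := by nlinarith
        have h7 : -(1 / (L : ℝ)) ≤ Int.fract (c a f) - Int.fract (c a' f) := by
          rw [← neg_div, div_le_iff₀ hLr]
          exact this
        linarith
      · rw [le_div_iff₀ hLr]
        nlinarith
    · push_cast
      have h1 := Int.floor_add_fract (c a f)
      have h2 := Int.floor_add_fract (c a' f)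
      linarith
  -- monomials outside F vanish
  have hvan : ∀ f, f ∉ F → ∏ i, (f i).elim (1 : ℝ) (fun j => (((y j : ℕ)) : ℝ)) = 0 := by
    intro f hf
    rw [hF, Fintype.mem_piFinset] at hf
    push Not at hf
    obtain ⟨i, hi⟩ := hf
    rw [hG, mem_filter] at hi
    simp only [mem_univ, true_and] at hi
    push Not at hi
    obtain ⟨j, hj, hju⟩ := hi
    refine prod_eq_zero (mem_univ i) ?_
    rw [hj]
    have := hy' j
    simp only [hg] at this
    rw [if_neg (by omega)] at this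
    have h0 : (y j : ℕ) = 0 := by omega
    simp [h0]
  have hpoly : ∀ b : Fin d, (∑ f, c b f * ∏ i, (f i).elim (1 : ℝ) (fun j => (((y j : ℕ)) : ℝ)))
      = ∑ f ∈ F, c b f * ∏ i, (f i).elim (1 : ℝ) (fun j => (((y j : ℕ)) : ℝ)) := by
    intro b
    symm
    refine sum_subset (subset_univ _) fun f _ hf => ?_
    rw [hvan f hf, mul_zero]
  choose! n δ hδ hnδ using hdiff
  choose M hM using fun f : Fin D → Option (Fin s) => mono_int f (fun j => (y j : ℕ))
  refine ⟨∑ f ∈ F, n f * M f,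
    ∑ f ∈ F, δ f * ∏ i, (f i).elim (1 : ℝ) (fun j => (((y j : ℕ)) : ℝ)), ?_, ?_⟩
  · calc |∑ f ∈ F, δ f * ∏ i, (f i).elim (1 : ℝ) (fun j => (((y j : ℕ)) : ℝ))|
        ≤ ∑ f ∈ F, |δ f * ∏ i, (f i).elim (1 : ℝ) (fun j => (((y j : ℕ)) : ℝ))| :=
          abs_sum_le_sum_abs _ _
      _ ≤ ∑ _f ∈ F, 1 / (L : ℝ) * (w : ℝ) ^ D := by
          refine sum_le_sum fun f hf => ?_
          obtain ⟨h1, h2⟩ := mono_bounds hw f (fun j => (y j : ℕ)) hyw
          rw [abs_mul, abs_of_nonneg h1]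
          exact mul_le_mul (hδ f hf) h2 h1 (by positivity)
      _ = 1 / 6 := by
          rw [sum_const, hFc, nsmul_eq_mul, hL]
          push_cast
          have h1 : (B : ℝ) ≠ 0 := by exact_mod_cast hBpos.ne'
          have h2 : (w : ℝ) ^ D ≠ 0 := by positivity
          field_simp
  · rw [hpoly a, hpoly a', ← sum_sub_distrib]
    push_cast
    rw [← sum_add_distrib]
    refine sum_congr rfl fun f hf => ?_
    rw [← sub_mul, hnδ f hf, add_mul, ← hM f]

/-- B2, with the constant `8`. -/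
theorem box8 {s N d m D u w : ℕ} (hm : 1 ≤ m) (hu : u ≤ s) (hw1 : 1 ≤ w) (hw : w ≤ N)
    (Q : Fin d → MvPolynomial (Fin s) ℝ) (hQ : ∀ a, (Q a).totalDegree ≤ D)
    (hA : RIP m (fun (y : Fin s → Fin N) (a : Fin d) =>
      e (MvPolynomial.eval (fun j => ((y j : ℕ) : ℝ)) (Q a))))
    (hcard : m * (6 * (u + 1) ^ D * w ^ D) ^ ((u + 1) ^ D) ≤ d) :
    m * w ^ u ≤ 8 * N ^ s := by
  choose c hc using fun a => eval_eq (Q a) (hQ a)
  refine core_B hm hu hw1 hw c ?_ hcard
  have h1 : (fun (y : Fin s → Fin N) (a : Fin d) =>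
      e (∑ f, c a f * ∏ i, (f i).elim 1 (fun j => ((y j : ℕ) : ℝ))))
      = (fun (y : Fin s → Fin N) (a : Fin d) =>
      e (MvPolynomial.eval (fun j => ((y j : ℕ) : ℝ)) (Q a))) := by
    funext y a
    rw [hc a]
  rw [h1]
  exact hA

/-- B2. -/
theorem box {s N d m D u w : ℕ} (hm : 1 ≤ m) (hu : u ≤ s) (hw1 : 1 ≤ w) (hw : w ≤ N)
    (Q : Fin d → MvPolynomial (Fin s) ℝ) (hQ : ∀ a, (Q a).totalDegree ≤ D)
    (hA : RIP m (fun (y : Fin s → Fin N) (a : Fin d) =>
      e (MvPolynomial.eval (fun j => ((y j : ℕ) : ℝ)) (Q a))))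
    (hcard : m * (6 * (u + 1) ^ D * w ^ D) ^ ((u + 1) ^ D) ≤ d) :
    m * w ^ u ≤ 16 * N ^ s :=
  (box8 hm hu hw1 hw Q hQ hA hcard).trans (Nat.mul_le_mul_right _ (by norm_num))

end RIPPhase
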