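import Pool.Agent.Lib.RIPPhase.Box

/-!
# The exact box inequality
-/

set_option autoImplicit false

open Finset

namespace RIPPhase

/-- Unimodular factors of the columns do not matter for the RIP. -/
theorem RIP.mul_unit {ι κ : Type*} [Fintype ι] [Fintype κ] {m : ℕ} {A : ι → κ → ℂ}
    (hA : RIP m A) (z : κ → ℂ) (hz : ∀ a, ‖z a‖ = 1) : RIP m (fun i a => A i a * z a) := by
  obtain ⟨s, hs, h⟩ := hA
  refine ⟨s, hs, fun x hx => ?_⟩
  have hz0 : ∀ a, z a ≠ 0 := fun a h0 => by have := hz a; rw [h0] at this; simp at this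
  have h1 := h (fun a => z a * x a) (by
    have : {a | z a * x a ≠ 0} = {a | x a ≠ 0} := by
      ext a; simp [hz0 a]
    rw [this]; exact hx)
  simp only [norm_mul, hz, one_mul, ← mul_assoc] at h1
  exact h1

/-- **Bounded phases**, with the constant `8`. -/
theorem master8 {ι κ J : Type*} [Fintype ι] [Fintype κ] [Fintype J] {m : ℕ} (hm : 1 ≤ m)
    (θ : ι → κ → ℝ) (hA : RIP m (fun y a => e (θ y a))) (f : J → ι → ℤ) (c0 : κ → ℝ)
    (c : κ → J → ℝ) (W : J → ℕ) (hW : ∀ j, 1 ≤ W j) (Y : Finset ι)
    (hY : ∀ y ∈ Y, ∀ j, |f j y| ≤ W j)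
    (hθ : ∀ y ∈ Y, ∀ a, θ y a = c0 a + ∑ j, c a j * f j y)
    (hcard : m * ∏ j, (6 * Fintype.card J * W j) ≤ Fintype.card κ) :
    m * Y.card ≤ 8 * Fintype.card ι := by
  classical
  set M : J → ℕ := fun j => 6 * Fintype.card J * W j with hM
  have hMpos : ∀ j, 0 < M j := by
    intro j
    have : 0 < Fintype.card J := Fintype.card_pos_iff.mpr ⟨j⟩
    have := hW j
    simp only [hM]; positivity
  have hlt : ∀ a j, ⌊Int.fract (c a j) * M j⌋₊ < M j := by
    intro a j
    have h0 : (0 : ℝ) < M j := by exact_mod_cast hMpos j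
    rw [Nat.floor_lt (mul_nonneg (Int.fract_nonneg _) h0.le)]
    calc Int.fract (c a j) * M j < 1 * M j :=
          mul_lt_mul_of_pos_right (Int.fract_lt_one _) h0
      _ = M j := one_mul _
  set T : κ → (∀ j, Fin (M j)) := fun a j => ⟨⌊Int.fract (c a j) * M j⌋₊, hlt a j⟩ with hT
  obtain ⟨v, -, hv⟩ := Finset.exists_le_card_fiber_of_mul_le_card_of_maps_to
    (s := (Finset.univ : Finset κ)) (t := (Finset.univ : Finset (∀ j, Fin (M j)))) (f := T) (n := m)
    (fun a _ => Finset.mem_univ _)
    (by
      have : ∀ j, Nonempty (Fin (M j)) := fun j => ⟨⟨0, hMpos j⟩⟩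
      exact Finset.univ_nonempty)
    (by
      rw [Finset.card_univ, Finset.card_univ, Fintype.card_pi]
      simp only [Fintype.card_fin]
      rw [mul_comm]
      exact hcard)
  obtain ⟨S, hSv, hS⟩ := Finset.exists_subset_card_eq hv
  have hST : ∀ a ∈ S, T a = v := fun a ha => (Finset.mem_filter.mp (hSv ha)).2
  have hA' : RIP m (fun y a => e (θ y a - c0 a)) := by
    have h1 := hA.mul_unit (fun a => e (-c0 a)) (fun a => norm_e _)
    have h2 : (fun (y : ι) (a : κ) => e (θ y a) * e (-c0 a)) = fun y a => e (θ y a - c0 a) := by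
      funext y a
      rw [← e_add, sub_eq_add_neg]
    rw [h2] at h1
    exact h1
  refine local_pattern hm (fun y a => θ y a - c0 a) hA' Y S hS ?_
  intro y hy a ha a0 ha0
  refine ⟨∑ j, (⌊c a j⌋ - ⌊c a0 j⌋) * f j y,
    ∑ j, (Int.fract (c a j) - Int.fract (c a0 j)) * f j y, ?_, ?_⟩
  · calc |∑ j, (Int.fract (c a j) - Int.fract (c a0 j)) * f j y|
        ≤ ∑ j, |(Int.fract (c a j) - Int.fract (c a0 j)) * f j y| := Finset.abs_sum_le_sum_abs _ _
      _ ≤ ∑ _j : J, 1 / (6 * (Fintype.card J : ℝ)) := by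
          refine Finset.sum_le_sum fun j _ => ?_
          have hJ : (0 : ℝ) < Fintype.card J := by
            exact_mod_cast Fintype.card_pos_iff.mpr ⟨j⟩
          have hWj : (0 : ℝ) < W j := by exact_mod_cast hW j
          have hMj : ((M j : ℕ) : ℝ) = 6 * Fintype.card J * W j := by simp [hM]
          have hM0 : (0 : ℝ) < M j := by exact_mod_cast hMpos j
          have hfl : ⌊Int.fract (c a j) * M j⌋₊ = ⌊Int.fract (c a0 j) * M j⌋₊ := by
            have := (hST a ha).trans (hST a0 ha0).symm
            have := congrFun this j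
            simpa [hT, Fin.ext_iff] using this
          have hd : |Int.fract (c a j) * M j - Int.fract (c a0 j) * M j| ≤ 1 := by
            have p1 := Nat.floor_le (mul_nonneg (Int.fract_nonneg (c a j)) hM0.le)
            have p2 := Nat.lt_floor_add_one (Int.fract (c a j) * M j)
            have p3 := Nat.floor_le (mul_nonneg (Int.fract_nonneg (c a0 j)) hM0.le)
            have p4 := Nat.lt_floor_add_one (Int.fract (c a0 j) * M j)
            rw [hfl] at p1 p2
            rw [abs_le]; constructor <;> linarith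
          have hd2 : |Int.fract (c a j) - Int.fract (c a0 j)| ≤ 1 / M j := by
            rw [le_div_iff₀ hM0]
            calc |Int.fract (c a j) - Int.fract (c a0 j)| * M j
                = |Int.fract (c a j) * M j - Int.fract (c a0 j) * M j| := by
                  rw [← sub_mul, abs_mul, abs_of_pos hM0]
              _ ≤ 1 := hd
          have hf : |((f j y : ℤ) : ℝ)| ≤ W j := by
            have := hY y hy j
            exact_mod_cast this
          rw [abs_mul]
          calc |Int.fract (c a j) - Int.fract (c a0 j)| * |((f j y : ℤ) : ℝ)|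
              ≤ 1 / M j * W j := mul_le_mul hd2 hf (abs_nonneg _) (by positivity)
            _ = 1 / (6 * (Fintype.card J : ℝ)) := by
                rw [hMj]; field_simp
      _ ≤ 1 / 6 := by
          rw [Finset.sum_const, Finset.card_univ, nsmul_eq_mul]
          rcases Nat.eq_zero_or_pos (Fintype.card J) with h0 | h0
          · rw [h0]; norm_num
          · have : (0 : ℝ) < Fintype.card J := by exact_mod_cast h0
            apply le_of_eq; field_simp
  · simp only [hθ y hy]
    push_cast
    rw [← Finset.sum_add_distrib]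
    have : c0 a + ∑ j, c a j * (f j y : ℝ) - c0 a - (c0 a0 + ∑ j, c a0 j * (f j y : ℝ) - c0 a0) =
        ∑ j, c a j * (f j y : ℝ) - ∑ j, c a0 j * (f j y : ℝ) := by ring
    rw [this, ← Finset.sum_sub_distrib]
    refine Finset.sum_congr rfl fun j _ => ?_
    have h1 := Int.floor_add_fract (c a j)
    have h2 := Int.floor_add_fract (c a0 j)
    rw [← Int.self_sub_floor, ← Int.self_sub_floor]
    ring

/-- The nonconstant monomials of degree at most `D` in `u` variables (exponent vectors). -/
def Mon (u D : ℕ) : Finset (Fin u → ℕ) :=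
  (Fintype.piFinset fun _ => Finset.range (D + 1)).filter (fun α => 1 ≤ ∑ j, α j ∧ ∑ j, α j ≤ D)

theorem mem_Mon {u D : ℕ} (α : Fin u → ℕ) : α ∈ Mon u D ↔ 1 ≤ ∑ j, α j ∧ ∑ j, α j ≤ D := by
  unfold Mon
  rw [Finset.mem_filter, Fintype.mem_piFinset]
  constructor
  · exact fun h => h.2
  · intro h
    refine ⟨fun j => ?_, h⟩
    rw [Finset.mem_range]
    have : α j ≤ ∑ j, α j := Finset.single_le_sum (fun _ _ => Nat.zero_le _) (Finset.mem_univ j)
    omega

/-- The exponent vector `α` in the first `u` of `s` variables. -/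
noncomputable def emb {u s : ℕ} (α : Fin u → ℕ) : Fin s →₀ ℕ :=
  Finsupp.equivFunOnFinite.symm (fun i : Fin s => if h : (i : ℕ) < u then α ⟨i, h⟩ else 0)

theorem emb_apply {u s : ℕ} (α : Fin u → ℕ) (i : Fin s) :
    (emb α : Fin s →₀ ℕ) i = if h : (i : ℕ) < u then α ⟨i, h⟩ else 0 := rfl

theorem emb_castLE {u s : ℕ} (hu : u ≤ s) (α : Fin u → ℕ) (j : Fin u) :
    (emb α : Fin s →₀ ℕ) (Fin.castLE hu j) = α j := by
  rw [emb_apply]; simp

theorem emb_injective {u s : ℕ} (hu : u ≤ s) :
    Function.Injective (emb : (Fin u → ℕ) → (Fin s →₀ ℕ)) := by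
  intro α β h
  funext j
  have := DFunLike.congr_fun h (Fin.castLE hu j)
  rwa [emb_castLE, emb_castLE] at this

/-- A polynomial of degree at most `D` at a point whose coordinates `≥ u` vanish. -/
theorem eval_first {s D u : ℕ} (hu : u ≤ s) (Q : MvPolynomial (Fin s) ℝ) (hQ : Q.totalDegree ≤ D)
    (y : Fin s → ℕ) (hy : ∀ i : Fin s, u ≤ (i : ℕ) → y i = 0) :
    MvPolynomial.eval (fun j => (y j : ℝ)) Q = Q.coeff 0 +
      ∑ α : {α // α ∈ Mon u D}, Q.coeff (emb α.1) *
        ((∏ j : Fin u, ((y (Fin.castLE hu j) : ℕ) : ℤ) ^ (α.1 j) : ℤ) : ℝ) := by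
  classical
  set t : (Fin s →₀ ℕ) → ℝ := fun β => Q.coeff β * ∏ i, (y i : ℝ) ^ β i with ht
  have h0 : MvPolynomial.eval (fun j => (y j : ℝ)) Q = ∑ β ∈ Q.support, t β := by
    rw [MvPolynomial.eval_eq']
  have hemb0 : (emb (0 : Fin u → ℕ) : Fin s →₀ ℕ) = 0 := by
    ext i; rw [emb_apply]; simp
  have h0mem : (0 : Fin u → ℕ) ∉ Mon u D := by
    rw [mem_Mon]; simp
  set K : Finset (Fin s →₀ ℕ) := (insert 0 (Mon u D)).image emb with hK
  have e1 : ∑ β ∈ Q.support, t β = ∑ β ∈ Q.support ∪ K, t β := by
    refine Finset.sum_subset Finset.subset_union_left fun β _ hβ => ?_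
    simp only [ht]
    rw [MvPolynomial.notMem_support_iff.mp hβ, zero_mul]
  have e2 : ∑ β ∈ K, t β = ∑ β ∈ Q.support ∪ K, t β := by
    refine Finset.sum_subset Finset.subset_union_right fun β hβ hβK => ?_
    rw [Finset.mem_union] at hβ
    have hβs : β ∈ Q.support := hβ.resolve_right hβK
    -- β uses a variable ≥ u
    by_cases hex : ∃ i : Fin s, u ≤ (i : ℕ) ∧ β i ≠ 0
    · obtain ⟨i, hi, hβi⟩ := hex
      simp only [ht]
      rw [Finset.prod_eq_zero (Finset.mem_univ i), mul_zero]
      rw [hy i hi]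
      simp [hβi]
    · exfalso
      push Not at hex
      apply hβK
      rw [hK, Finset.mem_image]
      set α : Fin u → ℕ := fun j => β (Fin.castLE hu j) with hα
      have hαβ : (emb α : Fin s →₀ ℕ) = β := by
        ext i
        rw [emb_apply]
        split_ifs with h
        · rfl
        · exact (hex i (by omega)).symm
      refine ⟨α, ?_, hαβ⟩
      rw [Finset.mem_insert, mem_Mon]
      have hdeg : ∑ j, α j ≤ D := by
        have h2 : ∑ j : Fin u, α j = ∑ i : Fin s, β i := by
          apply Fintype.sum_of_injective (Fin.castLE hu) (Fin.castLE_injective hu)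
          · intro i hi
            apply hex i
            by_contra hlt
            push Not at hlt
            exact hi ⟨⟨i, hlt⟩, rfl⟩
          · intro j; rfl
        rw [h2]
        refine le_trans ?_ hQ
        have h3 := MvPolynomial.le_totalDegree hβs
        rwa [Finsupp.sum_fintype _ _ (fun _ => rfl)] at h3
      rcases Nat.eq_zero_or_pos (∑ j, α j) with hz | hp
      · left
        funext j
        have : α j ≤ ∑ j, α j :=
          Finset.single_le_sum (fun _ _ => Nat.zero_le _) (Finset.mem_univ j)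
        simp only [Pi.zero_apply]
        omega
      · right; exact ⟨hp, hdeg⟩
  have h1 : ∑ β ∈ Q.support, t β = ∑ β ∈ K, t β := e1.trans e2.symm
  rw [h0, h1, hK, Finset.sum_image (fun a _ b _ h => emb_injective hu h),
    Finset.sum_insert h0mem]
  have h2 : ∀ α : Fin u → ℕ, t (emb α) = Q.coeff (emb α) *
      ((∏ j : Fin u, ((y (Fin.castLE hu j) : ℕ) : ℤ) ^ (α j) : ℤ) : ℝ) := by
    intro α
    simp only [ht]
    congr 1
    push_cast
    symm
    apply Fintype.prod_of_injective (Fin.castLE hu) (Fin.castLE_injective hu)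
    · intro i hi
      rw [emb_apply, dif_neg, pow_zero]
      intro hlt
      exact hi ⟨⟨i, hlt⟩, rfl⟩
    · intro j
      rw [emb_castLE]
  congr 1
  · rw [h2, hemb0]; simp
  · rw [← Finset.sum_coe_sort (Mon u D) (fun α => t (emb α))]
    refine Finset.sum_congr rfl fun α _ => h2 α.1

/-- **The exact box inequality.** -/
theorem box_exact {s N d m D u w : ℕ} (hm : 1 ≤ m) (hu : u ≤ s) (hw1 : 1 ≤ w) (hw : w ≤ N)
    (Q : Fin d → MvPolynomial (Fin s) ℝ) (hQ : ∀ a, (Q a).totalDegree ≤ D)
    (hA : RIP m (fun (y : Fin s → Fin N) (a : Fin d) =>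
      e (MvPolynomial.eval (fun j => ((y j : ℕ) : ℝ)) (Q a))))
    (hcard : m * ∏ α ∈ Mon u D, (6 * (Mon u D).card * w ^ (∑ j, α j)) ≤ d) :
    m * w ^ u ≤ 8 * N ^ s := by
  classical
  -- the sub-box
  set g : Fin s → ℕ := fun j => if (j : ℕ) < u then w else 1 with hg
  set Y : Finset (Fin s → Fin N) :=
    Fintype.piFinset (fun j => univ.filter (fun t : Fin N => (t : ℕ) < g j)) with hY
  have hgN : ∀ j, g j ≤ N := by
    intro j
    simp only [hg]
    split_ifs
    · exact hw
    · omega
  have hYc : Y.card = w ^ u := by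
    rw [hY, Fintype.card_piFinset]
    have h1 : ∀ j : Fin s, (univ.filter (fun t : Fin N => (t : ℕ) < g j)).card = g j := by
      intro j
      have := Fin.card_filter_val_lt (n := N) (m := g j)
      simpa [min_eq_right (hgN j)] using this
    simp_rw [h1]
    simp only [hg]
    rw [prod_ite, prod_const, prod_const_one, mul_one]
    congr 1
    have := Fin.card_filter_val_lt (n := s) (m := u)
    simpa [min_eq_right hu] using this
  have hYg : ∀ y ∈ Y, ∀ j, (y j : ℕ) < g j := by
    intro y hy j
    have := (Fintype.mem_piFinset.1 hy) j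
    simpa using this
  have key := master8 (J := {α // α ∈ Mon u D}) hm
    (fun (y : Fin s → Fin N) (a : Fin d) => MvPolynomial.eval (fun j => ((y j : ℕ) : ℝ)) (Q a)) hA
    (fun α y => ∏ j : Fin u, (((y (Fin.castLE hu j) : Fin N) : ℕ) : ℤ) ^ (α.1 j))
    (fun a => (Q a).coeff 0) (fun a α => (Q a).coeff (emb α.1)) (fun α => w ^ (∑ j, α.1 j))
    (fun α => Nat.one_le_pow _ _ hw1) Y
    (by
      intro y hy α
      rw [abs_of_nonneg (Finset.prod_nonneg fun _ _ => by positivity), ← Finset.prod_pow_eq_pow_sum]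
      push_cast
      apply Finset.prod_le_prod (fun _ _ => by positivity)
      intro j _
      apply pow_le_pow_left₀ (by positivity)
      have h1 := hYg y hy (Fin.castLE hu j)
      have h2 : g (Fin.castLE hu j) = w := by simp [hg]
      rw [h2] at h1
      exact_mod_cast h1.le)
    (by
      intro y hy a
      exact eval_first hu (Q a) (hQ a) (fun j => (y j : ℕ)) (by
        intro i hi
        have h1 := hYg y hy i
        simp only [hg] at h1
        rw [if_neg (by omega)] at h1
        omega))
    (by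
      rw [Fintype.card_fin]
      refine le_trans (le_of_eq ?_) hcard
      congr 1
      rw [Fintype.card_coe]
      exact (Finset.prod_coe_sort (Mon u D)
        (fun α => 6 * (Mon u D).card * w ^ (∑ j, α j))))
  rw [hYc, Fintype.card_fun, Fintype.card_fin, Fintype.card_fin] at key
  exact key

end RIPPhase
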