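import Mathlib

/-! Choice of the parameters `u`, `w` (helper32, for MP_e0e10a_lc.ManyVariables). -/

set_option autoImplicit false

open Finset

namespace RIPPhase

/-- one exponential bound -/
theorem params_mul {d m : ℕ} {ε L z : ℝ} (hd : 0 < (d : ℝ)) (hL : L = Real.log d)
    (h2 : (m : ℝ) ≤ (d : ℝ) ^ (1 - ε)) {a : ℕ} (ha : (a : ℝ) ≤ Real.exp z) (hz : z ≤ ε * L) :
    m * a ≤ d := by
  have h : (m : ℝ) * a ≤ d := by
    have h3 : (a : ℝ) ≤ (d : ℝ) ^ ε := by
      rw [Real.rpow_def_of_pos hd, ← hL]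
      exact ha.trans (Real.exp_le_exp.2 (by linarith [mul_comm L ε]))
    calc (m : ℝ) * a ≤ (d : ℝ) ^ (1 - ε) * (d : ℝ) ^ ε :=
          mul_le_mul h2 h3 (Nat.cast_nonneg _) (Real.rpow_nonneg hd.le _)
      _ = d := by rw [← Real.rpow_add hd, sub_add_cancel, Real.rpow_one]
  exact_mod_cast h

theorem params_exp3 : (16 : ℝ) ≤ Real.exp 3 := by
  have h2 := Real.exp_one_gt_d9
  have h1 : Real.exp 3 = Real.exp 1 ^ 3 := by
    rw [← Real.exp_nat_mul]
    norm_num
  have h3 : ((2.7 : ℝ)) ^ 3 ≤ Real.exp 1 ^ 3 :=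
    pow_le_pow_left₀ (by norm_num) (by linarith) _
  rw [h1]
  refine le_trans ?_ h3
  norm_num

/-- `(6 v ^ D w ^ D) ^ n ≤ exp (n * (2 + D p + D q))` if `v ≤ exp p`, `w ≤ exp q` -/
theorem params_pow {v w D n : ℕ} {p q : ℝ} (hv : (v : ℝ) ≤ Real.exp p) (hw : (w : ℝ) ≤ Real.exp q) :
    (((6 * v ^ D * w ^ D) ^ n : ℕ) : ℝ) ≤ Real.exp (n * (2 + D * p + D * q)) := by
  have h6 : (6 : ℝ) ≤ Real.exp 2 := by
    have h1 : Real.exp 2 = Real.exp 1 * Real.exp 1 := by rw [← Real.exp_add]; norm_num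
    have h2 := Real.exp_one_gt_d9
    rw [h1]
    nlinarith
  have e1 : (v : ℝ) ^ D ≤ Real.exp (D * p) := by
    rw [Real.exp_nat_mul]
    exact pow_le_pow_left₀ (Nat.cast_nonneg _) hv _
  have e2 : (w : ℝ) ^ D ≤ Real.exp (D * q) := by
    rw [Real.exp_nat_mul]
    exact pow_le_pow_left₀ (Nat.cast_nonneg _) hw _
  have e3 : (6 : ℝ) * v ^ D * w ^ D ≤ Real.exp (2 + D * p + D * q) := by
    rw [Real.exp_add, Real.exp_add]
    exact mul_le_mul (mul_le_mul h6 e1 (by positivity) (by positivity)) e2 (by positivity)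
      (by positivity)
  push_cast
  rw [Real.exp_nat_mul]
  exact pow_le_pow_left₀ (by positivity) e3 _

/-- B3. `T = c * (log d) ^ (1 / (D + 1))`, `c` small: if `s ≥ 1` and `⌈exp T⌉ ≤ N` take
`u = 1`, `w = ⌈exp T⌉`; else `w = 2`, `u = ⌈T / log 2⌉`. -/
theorem params (D : ℕ) (hD : 1 ≤ D) (ε : ℝ) (hε : 0 < ε) :
    ∃ c : ℝ, 0 < c ∧ ∃ d0 : ℕ, ∀ d : ℕ, d0 ≤ d → ∀ m s N : ℕ,
      (d : ℝ) ^ ε ≤ m → (m : ℝ) ≤ (d : ℝ) ^ (1 - ε) → (m : ℝ) ≤ 16 * (N : ℝ) ^ s →
      ∃ u w : ℕ, u ≤ s ∧ 1 ≤ w ∧ w ≤ N ∧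
        m * (6 * (u + 1) ^ D * w ^ D) ^ ((u + 1) ^ D) ≤ d ∧
        Real.exp (c * Real.log d ^ (1 / ((D : ℝ) + 1))) ≤ (w : ℝ) ^ u := by
  have hD1 : (1 : ℝ) ≤ D := by exact_mod_cast hD
  obtain ⟨k, hk⟩ : ∃ k : ℝ, k = 2 + 3 * D := ⟨_, rfl⟩
  have hk5 : 5 ≤ k := by rw [hk]; linarith
  obtain ⟨c, hc⟩ : ∃ c : ℝ, c = min ε 1 / (8 * k) := ⟨_, rfl⟩
  have hk0 : 0 < 8 * k := by linarith
  have hc0 : 0 < c := by rw [hc]; exact div_pos (lt_min hε one_pos) hk0
  have hcm : c * (8 * k) = min ε 1 := by rw [hc, div_mul_cancel₀ _ hk0.ne']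
  have hcε : c * (8 * k) ≤ ε := hcm.le.trans (min_le_left _ _)
  have hc1 : c * (8 * k) ≤ 1 := hcm.le.trans (min_le_right _ _)
  have hc16 : c ≤ 1 / 16 := by
    have g1 : c * 5 ≤ c * k := mul_le_mul_of_nonneg_left hk5 hc0.le
    linarith
  obtain ⟨S0, hS0⟩ : ∃ S0 : ℝ, S0 = 4 / c + 2 ^ D * k / ε + 16 / ε + 1 := ⟨_, rfl⟩
  have p1 : 0 < 4 / c := by positivity
  have p2 : 0 < 2 ^ D * k / ε := by positivity
  have p3 : 0 < 16 / ε := by positivity
  refine ⟨c, hc0, ⌈Real.exp (S0 ^ (D + 1))⌉₊, ?_⟩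
  intro d hd m s N h1 h2 h3
  have hdexp : Real.exp (S0 ^ (D + 1)) ≤ d := (Nat.le_ceil _).trans (by exact_mod_cast hd)
  have hd0 : (0 : ℝ) < d := (Real.exp_pos _).trans_le hdexp
  obtain ⟨L, hL⟩ : ∃ L, L = Real.log d := ⟨_, rfl⟩
  have hSL : S0 ^ (D + 1) ≤ L := by rw [hL]; exact (Real.le_log_iff_exp_le hd0).2 hdexp
  have hS01 : 1 ≤ S0 := by rw [hS0]; linarith
  have hL0 : 0 ≤ L := (by positivity : (0 : ℝ) ≤ S0 ^ (D + 1)).trans hSL
  obtain ⟨S, hS⟩ : ∃ S, S = L ^ (1 / ((D : ℝ) + 1)) := ⟨_, rfl⟩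
  have hDne : ((D : ℝ) + 1) ≠ 0 := by positivity
  have hLS : L = S ^ (D + 1) := by
    rw [hS, ← Real.rpow_natCast, ← Real.rpow_mul hL0]
    push_cast
    rw [one_div_mul_cancel hDne, Real.rpow_one]
  have hS' : S0 ≤ S := by
    have hSn : 0 ≤ S := by rw [hS]; exact Real.rpow_nonneg hL0 _
    rw [hLS] at hSL
    exact (pow_le_pow_iff_left₀ (by linarith) hSn (Nat.succ_ne_zero D)).1 hSL
  have hS1 : 1 ≤ S := hS01.trans hS'
  have q1 : 4 ≤ c * S := by
    have : 4 / c ≤ S := by linarith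
    rw [div_le_iff₀ hc0] at this
    linarith
  have q2 : 2 ^ D * k ≤ ε * S := by
    have : 2 ^ D * k / ε ≤ S := by linarith
    rw [div_le_iff₀ hε] at this
    linarith
  have q3 : 16 ≤ ε * S := by
    have : 16 / ε ≤ S := by linarith
    rw [div_le_iff₀ hε] at this
    linarith
  have hS2 : S ^ 2 ≤ L := by
    rw [hLS]
    exact pow_le_pow_right₀ hS1 (by omega)
  have hεL : ε * S ^ 2 ≤ ε * L := mul_le_mul_of_nonneg_left hS2 hε.le
  obtain ⟨T, hT⟩ : ∃ T, T = c * S := ⟨_, rfl⟩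
  rw [← hL, ← hS, ← hT]
  rw [← hT] at q1
  have hTS : T ≤ S := by
    rw [hT]
    calc c * S ≤ 1 * S := mul_le_mul_of_nonneg_right (by linarith) (by linarith)
      _ = S := one_mul _
  have hm16 : (16 : ℝ) < m := by
    have h4 : Real.exp (L * ε) ≤ m := by
      rw [Real.rpow_def_of_pos hd0, ← hL] at h1
      exact h1
    have h5 : (16 : ℝ) ≤ L * ε := by
      have g1 : ε * S * 1 ≤ ε * S * S := mul_le_mul_of_nonneg_left hS1 (by linarith)
      linarith [mul_comm L ε, (by ring : ε * S * S = ε * S ^ 2)]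
    have h6 := Real.add_one_le_exp (L * ε)
    linarith
  have hs1 : 1 ≤ s := by
    by_contra h4
    have h5 : s = 0 := by omega
    rw [h5, pow_zero] at h3
    linarith
  have hN2 : 2 ≤ N := by
    by_contra h4
    have h5 : (N : ℝ) ≤ 1 := by exact_mod_cast (by omega : N ≤ 1)
    have h6 : (N : ℝ) ^ s ≤ 1 := pow_le_one₀ (Nat.cast_nonneg _) h5
    linarith
  by_cases hN : ⌈Real.exp T⌉₊ ≤ N
  · refine ⟨1, ⌈Real.exp T⌉₊, hs1, ?_, hN, ?_, ?_⟩
    · exact Nat.one_le_iff_ne_zero.2 (Nat.ceil_pos.2 (Real.exp_pos _)).ne'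
    · have hw : ((⌈Real.exp T⌉₊ : ℕ) : ℝ) ≤ Real.exp (T + 1) := by
        have h4 := (Nat.ceil_lt_add_one (Real.exp_pos T).le).le
        have h5 := Real.one_le_exp (x := T) (by linarith)
        have h6 := Real.add_one_le_exp (1 : ℝ)
        have g1 : Real.exp T * (1 + 1) ≤ Real.exp T * Real.exp 1 :=
          mul_le_mul_of_nonneg_left h6 (Real.exp_pos _).le
        rw [Real.exp_add]
        linarith
      have hv : ((1 + 1 : ℕ) : ℝ) ≤ Real.exp 1 := by
        have h6 := Real.add_one_le_exp (1 : ℝ)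
        push_cast
        linarith
      refine params_mul hd0 hL h2 (params_pow hv hw) ?_
      push_cast
      have h7 : (2 + (D : ℝ) * 1 + D * (T + 1)) ≤ k * S := by
        have g1 : (D : ℝ) * T ≤ D * S := mul_le_mul_of_nonneg_left hTS (by linarith)
        have g2 : (D : ℝ) * 1 ≤ D * S := mul_le_mul_of_nonneg_left hS1 (by linarith)
        rw [hk]
        linarith
      calc (2 : ℝ) ^ D * (2 + (D : ℝ) * 1 + D * (T + 1)) ≤ 2 ^ D * (k * S) :=
            mul_le_mul_of_nonneg_left h7 (by positivity)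
        _ = (2 ^ D * k) * S := by ring
        _ ≤ (ε * S) * S := mul_le_mul_of_nonneg_right q2 (by linarith)
        _ = ε * S ^ 2 := by ring
        _ ≤ ε * L := hεL
    · rw [pow_one]
      exact Nat.le_ceil _
  · have hNe : (N : ℝ) < Real.exp T := by
      rw [not_le] at hN
      exact Nat.lt_ceil.1 hN
    have hl2 : 0 < Real.log 2 := Real.log_pos (by norm_num)
    have hl2' : (69 : ℝ) / 100 ≤ Real.log 2 := by
      have := Real.log_two_gt_d9
      linarith
    have hTl : T / Real.log 2 ≤ 3 / 2 * T := by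
      rw [div_le_iff₀ hl2]
      have g1 : T * (69 / 100) ≤ T * Real.log 2 := mul_le_mul_of_nonneg_left hl2' (by linarith)
      linarith
    have hceil := (Nat.ceil_lt_add_one (div_nonneg (by linarith : 0 ≤ T) hl2.le)).le
    refine ⟨⌈T / Real.log 2⌉₊, 2, ?_, by norm_num, hN2, ?_, ?_⟩
    · have h4 : Real.exp (L * ε) ≤ 16 * Real.exp (s * T) := by
        rw [Real.rpow_def_of_pos hd0, ← hL] at h1
        refine (h1.trans h3).trans ?_
        rw [Real.exp_nat_mul]
        exact mul_le_mul_of_nonneg_left (pow_le_pow_left₀ (Nat.cast_nonneg _) hNe.le _)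
          (by norm_num)
      have h5 := params_exp3
      have h6 : L * ε ≤ 3 + s * T := by
        rw [← Real.exp_le_exp, Real.exp_add]
        exact h4.trans (mul_le_mul_of_nonneg_right h5 (Real.exp_pos _).le)
      have h7 : ((⌈T / Real.log 2⌉₊ : ℕ) : ℝ) * T ≤ s * T := by
        have h8 : ((⌈T / Real.log 2⌉₊ : ℕ) : ℝ) * T ≤ (3 / 2 * T + 1) * T :=
          mul_le_mul_of_nonneg_right (by linarith) (by linarith)
        have h9 : (3 / 2 * T + 1) * T + 3 ≤ ε * S ^ 2 := by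
          have h10 : T * T ≤ (c * c) * S ^ 2 := by rw [hT]; exact le_of_eq (by ring)
          have h11 : c * c ≤ ε / 8 := by
            have g1 : c * c ≤ c * (1 / 16) := mul_le_mul_of_nonneg_left hc16 hc0.le
            have g2 : c * 5 ≤ c * k := mul_le_mul_of_nonneg_left hk5 hc0.le
            linarith
          have h12 : T * T ≤ ε / 8 * S ^ 2 := h10.trans (mul_le_mul_of_nonneg_right h11 (by positivity))
          have h13 : T ≤ 1 / 16 * S := by
            rw [hT]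
            exact mul_le_mul_of_nonneg_right hc16 (by linarith)
          have h14 : 16 * S ≤ ε * S ^ 2 := by
            have g1 : 16 * S ≤ ε * S * S := mul_le_mul_of_nonneg_right q3 (by linarith)
            linarith [(by ring : ε * S * S = ε * S ^ 2)]
          have g2 : (3 / 2 * T + 1) * T + 3 = 3 / 2 * (T * T) + T + 3 := by ring
          have g3 : ε / 8 * S ^ 2 = 1 / 8 * (ε * S ^ 2) := by ring
          rw [g2]
          linarith
        linarith [mul_comm L ε]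
      have h8 := le_of_mul_le_mul_right h7 (by linarith)
      exact_mod_cast h8
    · obtain ⟨u, hu⟩ : ∃ u : ℕ, u = ⌈T / Real.log 2⌉₊ := ⟨_, rfl⟩
      rw [← hu] at hceil ⊢
      have hu2 : ((u + 1 : ℕ) : ℝ) ≤ 2 * T := by push_cast; linarith
      have hu3 : ((u + 1 : ℕ) : ℝ) ≤ Real.exp (2 * T) := by
        have := Real.add_one_le_exp (2 * T)
        linarith
      have hw : ((2 : ℕ) : ℝ) ≤ Real.exp 1 := by
        have h6 := Real.add_one_le_exp (1 : ℝ)
        push_cast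
        linarith
      refine params_mul hd0 hL h2 (params_pow hu3 hw) ?_
      have e1 : (((u + 1) ^ D : ℕ) : ℝ) ≤ (2 * T) ^ D := by
        push_cast
        push_cast at hu2
        exact pow_le_pow_left₀ (by positivity) hu2 _
      have e2 : 2 + (D : ℝ) * (2 * T) + D * 1 ≤ k * (2 * T) := by
        have g1 : (D : ℝ) * 1 ≤ D * T := mul_le_mul_of_nonneg_left (by linarith) (by linarith)
        rw [hk]
        linarith
      calc (((u + 1) ^ D : ℕ) : ℝ) * (2 + (D : ℝ) * (2 * T) + D * 1)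
          ≤ (2 * T) ^ D * (k * (2 * T)) := mul_le_mul e1 e2 (by positivity) (by positivity)
        _ = k * (2 * c) ^ (D + 1) * S ^ (D + 1) := by rw [hT]; ring
        _ = k * (2 * c) ^ (D + 1) * L := by rw [← hLS]
        _ ≤ ε * L := by
          refine mul_le_mul_of_nonneg_right ?_ hL0
          have e3 : (2 * c) ^ (D + 1) ≤ (2 * c) ^ 1 :=
            pow_le_pow_of_le_one (by positivity) (by linarith) (by omega)
          rw [pow_one] at e3
          calc k * (2 * c) ^ (D + 1) ≤ k * (2 * c) := mul_le_mul_of_nonneg_left e3 (by linarith)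
            _ ≤ ε := by
              have g1 : 0 ≤ k * c := by positivity
              linarith
    · have h4 : T ≤ ((⌈T / Real.log 2⌉₊ : ℕ) : ℝ) * Real.log 2 := by
        have h5 := Nat.le_ceil (T / Real.log 2)
        rwa [div_le_iff₀ hl2] at h5
      calc Real.exp T ≤ Real.exp (((⌈T / Real.log 2⌉₊ : ℕ) : ℝ) * Real.log 2) :=
            Real.exp_le_exp.2 h4
        _ = ((2 : ℕ) : ℝ) ^ ⌈T / Real.log 2⌉₊ := by
          rw [Real.exp_nat_mul, Real.exp_log (by norm_num)]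
          norm_num

end RIPPhase
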