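import Pool.Agent.Lib.RIPPhase.Master

/-! The trivial bound `m ≤ 16 * #rows`. -/

set_option autoImplicit false

open Finset

namespace RIPPhase

/-- B4 (Rows.lean, from `aligned` with `Y` one row): the trivial bound. -/
theorem rows_ge {ι κ : Type*} [Fintype ι] [Fintype κ] {m : ℕ} {A : ι → κ → ℂ}
    (hA : RIP m A) (hA1 : ∀ i a, ‖A i a‖ = 1) (hm : 1 ≤ m) (hmd : m ≤ Fintype.card κ) :
    m ≤ 16 * Fintype.card ι := by
  classical
  obtain ⟨S, -, hS⟩ := Finset.exists_subset_card_eq (s := (Finset.univ : Finset κ)) (n := m)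
    (by simpa using hmd)
  obtain ⟨a0, ha0⟩ : S.Nonempty := Finset.card_pos.mp (by omega)
  have hne : Nonempty ι := by
    by_contra hcon
    rw [not_nonempty_iff] at hcon
    obtain ⟨s, hs, h⟩ := hA
    have hx := (h (Pi.single a0 1) (by
      refine (Set.ncard_le_ncard (t := {a0}) ?_ (Set.finite_singleton a0)).trans ?_
      · intro a ha
        by_contra hne
        exact ha (Pi.single_eq_of_ne hne _)
      · simpa using hm)).1
    rw [Finset.sum_eq_single a0 (by
      intro b _ hb
      simp [Pi.single_eq_of_ne hb]) (by simp)] at hx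
    simp at hx
    linarith
  obtain ⟨i0⟩ := hne
  have h := aligned hA hA1 S hS hm (fun a => (starRingEnd ℂ) (A i0 a))
    (fun a => by rw [Complex.norm_conj]; exact hA1 i0 a) {i0} (by
      intro y hy
      rw [Finset.mem_singleton] at hy
      subst hy
      have e1 : ∀ a ∈ S, A y a * (starRingEnd ℂ) (A y a) = 1 := by
        intro a _
        rw [Complex.mul_conj, Complex.normSq_eq_norm_sq, hA1]
        simp
      rw [Finset.sum_congr rfl e1, Finset.sum_const, hS, nsmul_eq_mul, mul_one, Complex.norm_natCast]
      have : (0 : ℝ) ≤ m := Nat.cast_nonneg m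
      linarith)
  simpa using h

end RIPPhase
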