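import Pool.Agent.Lib.RIPPhase.Box
import Pool.Agent.Lib.RIPPhase.Params
import Pool.Agent.Lib.RIPPhase.Rows

/-!
# Polynomial phases in many variables and the restricted isometry property
-/

set_option autoImplicit false

open Finset

namespace RIPPhase

/-- The result of (B). -/
theorem many_variables (D : ℕ) (hD : 1 ≤ D) (ε : ℝ) (hε : 0 < ε) :
    ∃ c : ℝ, 0 < c ∧ ∀ d m s N : ℕ, 1 ≤ m → m ≤ d → (d : ℝ) ^ ε ≤ m → (m : ℝ) ≤ (d : ℝ) ^ (1 - ε) →
      ∀ Q : Fin d → MvPolynomial (Fin s) ℝ, (∀ a, (Q a).totalDegree ≤ D) →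
        RIP m (fun (y : Fin s → Fin N) (a : Fin d) =>
          e (MvPolynomial.eval (fun j => ((y j : ℕ) : ℝ)) (Q a))) →
        c * m * Real.exp (c * Real.log d ^ (1 / ((D : ℝ) + 1))) ≤ (N : ℝ) ^ s := by
  obtain ⟨c, hc, d0, h⟩ := params D hD ε hε
  set K : ℝ := Real.exp (Real.log (d0 + 1) ^ (1 / ((D : ℝ) + 1))) with hK
  have hK1 : 1 ≤ K := by
    rw [hK]
    apply Real.one_le_exp
    apply Real.rpow_nonneg
    apply Real.log_nonneg
    have : (0 : ℝ) ≤ d0 := Nat.cast_nonneg _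
    linarith
  set c' : ℝ := min (min c 1) (1 / (16 * K)) with hc'
  have hc'0 : 0 < c' := by
    rw [hc']; positivity
  have hc'c : c' ≤ c := (min_le_left _ _).trans (min_le_left _ _)
  have hc'1 : c' ≤ 1 := (min_le_left _ _).trans (min_le_right _ _)
  have hc'K : c' ≤ 1 / (16 * K) := min_le_right _ _
  have hc'16 : c' ≤ 1 / 16 := by
    refine hc'K.trans ?_
    apply one_div_le_one_div_of_le (by norm_num)
    nlinarith
  refine ⟨c', hc'0, ?_⟩
  intro d m s N hm hmd h1 h2 Q hQ hA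
  have hm0 : (0 : ℝ) < m := by exact_mod_cast hm
  have hd1 : (1 : ℝ) ≤ d := by exact_mod_cast hm.trans hmd
  have hL0 : 0 ≤ Real.log d := Real.log_nonneg hd1
  have hLp : 0 ≤ Real.log d ^ (1 / ((D : ℝ) + 1)) := Real.rpow_nonneg hL0 _
  have hrows : m ≤ 16 * N ^ s := by
    have := rows_ge hA (fun i a => norm_e _) hm (by simpa using hmd)
    simpa using this
  have hrowsR : (m : ℝ) ≤ 16 * (N : ℝ) ^ s := by exact_mod_cast hrows
  rcases le_or_gt d0 d with hd | hd
  · obtain ⟨u, w, hu, hw1, hw, hcard, hexp⟩ := h d hd m s N h1 h2 hrowsR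
    have hb := box hm hu hw1 hw Q hQ hA hcard
    have hbR : (m : ℝ) * (w : ℝ) ^ u ≤ 16 * (N : ℝ) ^ s := by exact_mod_cast hb
    have he : Real.exp (c' * Real.log d ^ (1 / ((D : ℝ) + 1))) ≤ (w : ℝ) ^ u := by
      refine le_trans (Real.exp_le_exp.mpr ?_) hexp
      exact mul_le_mul_of_nonneg_right hc'c hLp
    have hwu : (0 : ℝ) ≤ (w : ℝ) ^ u := by positivity
    calc c' * m * Real.exp (c' * Real.log d ^ (1 / ((D : ℝ) + 1)))
        ≤ 1 / 16 * m * (w : ℝ) ^ u := by
          apply mul_le_mul _ he (Real.exp_pos _).le (by positivity)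
          exact mul_le_mul_of_nonneg_right hc'16 hm0.le
      _ = 1 / 16 * (m * (w : ℝ) ^ u) := by ring
      _ ≤ 1 / 16 * (16 * (N : ℝ) ^ s) := mul_le_mul_of_nonneg_left hbR (by norm_num)
      _ = (N : ℝ) ^ s := by ring
  · have he : Real.exp (c' * Real.log d ^ (1 / ((D : ℝ) + 1))) ≤ K := by
      rw [hK]
      apply Real.exp_le_exp.mpr
      calc c' * Real.log d ^ (1 / ((D : ℝ) + 1)) ≤ 1 * Real.log d ^ (1 / ((D : ℝ) + 1)) :=
            mul_le_mul_of_nonneg_right hc'1 hLp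
        _ = Real.log d ^ (1 / ((D : ℝ) + 1)) := one_mul _
        _ ≤ Real.log (d0 + 1) ^ (1 / ((D : ℝ) + 1)) := by
            apply Real.rpow_le_rpow hL0 _ (by positivity)
            apply Real.log_le_log (by linarith)
            have : (d : ℝ) ≤ d0 := by exact_mod_cast hd.le
            linarith
    have hK0 : 0 < K := by linarith
    calc c' * m * Real.exp (c' * Real.log d ^ (1 / ((D : ℝ) + 1)))
        ≤ 1 / (16 * K) * m * K := by
          apply mul_le_mul _ he (Real.exp_pos _).le (by positivity)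
          exact mul_le_mul_of_nonneg_right hc'K hm0.le
      _ = 1 / 16 * m := by field_simp
      _ ≤ 1 / 16 * (16 * (N : ℝ) ^ s) := mul_le_mul_of_nonneg_left hrowsR (by norm_num)
      _ = (N : ℝ) ^ s := by ring

end RIPPhase
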