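import Mathlib

/-!
# The restricted isometry property and bounded phases

`RIP m A` is the `m`-RIP of a complex matrix. If on a set `Y` of rows the phases of the columns are
real combinations of few bounded integer valued functions, then `m * #Y ≤ 16 * #rows`.
-/

set_option autoImplicit false

open Finset

namespace RIPPhase

/-- The `m`-RIP: after scaling by some `s > 0`, `|x|² ≤ s²|Ax|² ≤ 4|x|²` for every vector `x` with at
most `m` nonzero coordinates (Euclidean norms). -/
def RIP {ι κ : Type*} [Fintype ι] [Fintype κ] (m : ℕ) (A : ι → κ → ℂ) : Prop :=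
  ∃ s : ℝ, 0 < s ∧ ∀ x : κ → ℂ, {a : κ | x a ≠ 0}.ncard ≤ m →
    ∑ a, ‖x a‖ ^ 2 ≤ s ^ 2 * ∑ i, ‖∑ a, A i a * x a‖ ^ 2 ∧
      s ^ 2 * ∑ i, ‖∑ a, A i a * x a‖ ^ 2 ≤ 4 * ∑ a, ‖x a‖ ^ 2

/-- `e(t) = exp(2πit)`. -/
noncomputable def e (t : ℝ) : ℂ := Complex.exp (((2 * Real.pi * t : ℝ) : ℂ) * Complex.I)

theorem norm_e (t : ℝ) : ‖e t‖ = 1 := Complex.norm_exp_ofReal_mul_I _

theorem re_e (t : ℝ) : (e t).re = Real.cos (2 * Real.pi * t) := Complex.exp_ofReal_mul_I_re _

theorem e_add (s t : ℝ) : e (s + t) = e s * e t := by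
  unfold e
  rw [← Complex.exp_add]
  congr 1
  push_cast
  ring

theorem half_le_re {t : ℝ} (n : ℤ) (h : |t - n| ≤ 1 / 6) : 1 / 2 ≤ (e t).re := by
  rw [re_e]
  have e1 : Real.cos (2 * Real.pi * t) = Real.cos (2 * Real.pi * |t - n|) := by
    have : 2 * Real.pi * |t - n| = |2 * Real.pi * t - n * (2 * Real.pi)| := by
      rw [show 2 * Real.pi * t - n * (2 * Real.pi) = 2 * Real.pi * (t - n) by ring, abs_mul,
        abs_of_pos (by positivity : (0 : ℝ) < 2 * Real.pi)]
    rw [this, Real.cos_abs, Real.cos_sub_int_mul_two_pi]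
  rw [e1, ← Real.cos_pi_div_three]
  apply Real.cos_le_cos_of_nonneg_of_le_pi (by positivity) (by linarith [Real.pi_pos])
  have := mul_le_mul_of_nonneg_left h (by positivity : (0 : ℝ) ≤ 2 * Real.pi)
  linarith [Real.pi_pos]

/-- The RIP upper bound tested on `m` columns which are aligned on the rows of `Y`. -/
theorem aligned {ι κ : Type*} [Fintype ι] [Fintype κ] {m : ℕ} {A : ι → κ → ℂ}
    (hA : RIP m A) (hA1 : ∀ i a, ‖A i a‖ = 1) (S : Finset κ) (hS : S.card = m) (hm : 1 ≤ m)
    (z : κ → ℂ) (hz : ∀ a, ‖z a‖ = 1) (Y : Finset ι)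
    (hY : ∀ y ∈ Y, (m : ℝ) / 2 ≤ ‖∑ a ∈ S, A y a * z a‖) :
    m * Y.card ≤ 16 * Fintype.card ι := by
  classical
  obtain ⟨s, hs, h⟩ := hA
  have hm0 : (0 : ℝ) < m := by exact_mod_cast hm
  -- one column
  obtain ⟨a0, ha0⟩ : S.Nonempty := Finset.card_pos.mp (by omega)
  have h1 : (1 : ℝ) ≤ s ^ 2 * Fintype.card ι := by
    have hx := (h (Pi.single a0 1) (by
      refine (Set.ncard_le_ncard (t := {a0}) ?_ (Set.finite_singleton a0)).trans ?_
      · intro a ha
        by_contra hne
        exact ha (Pi.single_eq_of_ne hne _)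
      · simpa using hm)).1
    have e1 : ∑ a, ‖(Pi.single a0 (1 : ℂ) : κ → ℂ) a‖ ^ 2 = 1 := by
      rw [Finset.sum_eq_single a0]
      · simp
      · intro b _ hb; simp [Pi.single_eq_of_ne hb]
      · simp
    have e2 : ∀ i, ∑ a, A i a * (Pi.single a0 (1 : ℂ) : κ → ℂ) a = A i a0 := by
      intro i
      rw [Finset.sum_eq_single a0]
      · simp
      · intro b _ hb; simp [Pi.single_eq_of_ne hb]
      · simp
    simp only [e2, hA1, e1] at hx
    simpa using hx
  -- m columns
  set x : κ → ℂ := fun a => if a ∈ S then z a else 0 with hx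
  have h2 := (h x (by
    rw [← hS, ← Set.ncard_coe_finset]
    refine Set.ncard_le_ncard ?_ (Finset.finite_toSet S)
    intro a ha
    by_contra hne
    apply ha
    rw [hx]
    simp only [Finset.mem_coe] at hne
    simp [hne])).2
  have e3 : ∑ a, ‖x a‖ ^ 2 = m := by
    have : ∀ a, ‖x a‖ ^ 2 = if a ∈ S then (1 : ℝ) else 0 := by
      intro a
      rw [hx]
      by_cases ha : a ∈ S <;> simp [ha, hz]
    simp only [this]
    rw [Finset.sum_ite_mem, Finset.univ_inter, Finset.sum_const, hS]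
    simp
  have e4 : ∀ i, ∑ a, A i a * x a = ∑ a ∈ S, A i a * z a := by
    intro i
    have : ∀ a, A i a * x a = if a ∈ S then A i a * z a else 0 := by
      intro a
      rw [hx]
      by_cases ha : a ∈ S <;> simp [ha]
    simp only [this]
    rw [Finset.sum_ite_mem, Finset.univ_inter]
  simp only [e3, e4] at h2
  have h3 : (Y.card : ℝ) * ((m : ℝ) / 2) ^ 2 ≤ ∑ i, ‖∑ a ∈ S, A i a * z a‖ ^ 2 := by
    calc (Y.card : ℝ) * ((m : ℝ) / 2) ^ 2 = ∑ _y ∈ Y, ((m : ℝ) / 2) ^ 2 := by simp
      _ ≤ ∑ y ∈ Y, ‖∑ a ∈ S, A y a * z a‖ ^ 2 :=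
          Finset.sum_le_sum fun y hy => pow_le_pow_left₀ (by positivity) (hY y hy) 2
      _ ≤ ∑ i, ‖∑ a ∈ S, A i a * z a‖ ^ 2 :=
          Finset.sum_le_sum_of_subset_of_nonneg (Finset.subset_univ _) (fun _ _ _ => by positivity)
  have hs2 : 0 < s ^ 2 := by positivity
  have h4 : s ^ 2 * ((Y.card : ℝ) * ((m : ℝ) / 2) ^ 2) ≤ 4 * m :=
    (mul_le_mul_of_nonneg_left h3 hs2.le).trans h2
  have h5 : s ^ 2 * ((Y.card : ℝ) * m) ≤ 16 := by
    have : (s ^ 2 * ((Y.card : ℝ) * m)) * m ≤ 16 * m := by nlinarith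
    exact le_of_mul_le_mul_right this hm0
  have h6 : ((m : ℝ) * Y.card) ≤ 16 * Fintype.card ι := by
    have : s ^ 2 * ((m : ℝ) * Y.card) ≤ s ^ 2 * (16 * Fintype.card ι) := by nlinarith
    exact le_of_mul_le_mul_left this hs2
  exact_mod_cast h6

/-- **Bounded phases.** If on the rows `Y` all the phases are real combinations of integer valued
functions `f j` with `|f j| ≤ W j`, and there are at least `m * ∏ j, (6 #J W j)` columns, then the
`m`-RIP implies `m * #Y ≤ 16 * #rows`. -/
theorem master {ι κ J : Type*} [Fintype ι] [Fintype κ] [Fintype J] {m : ℕ} (hm : 1 ≤ m)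
    (θ : ι → κ → ℝ) (hA : RIP m (fun y a => e (θ y a))) (f : J → ι → ℤ) (c0 : κ → ℝ)
    (c : κ → J → ℝ) (W : J → ℕ) (hW : ∀ j, 1 ≤ W j) (Y : Finset ι)
    (hY : ∀ y ∈ Y, ∀ j, |f j y| ≤ W j)
    (hθ : ∀ y ∈ Y, ∀ a, θ y a = c0 a + ∑ j, c a j * f j y)
    (hcard : m * ∏ j, (6 * Fintype.card J * W j) ≤ Fintype.card κ) :
    m * Y.card ≤ 16 * Fintype.card ι := by
  classical
  set M : J → ℕ := fun j => 6 * Fintype.card J * W j with hM
  have hMpos : ∀ j, 0 < M j := by
    intro j
    have : 0 < Fintype.card J := Fintype.card_pos_iff.mpr ⟨j⟩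
    have := hW j
    simp only [hM]; positivity
  have hlt : ∀ a j, ⌊Int.fract (c a j) * M j⌋₊ < M j := by
    intro a j
    have h0 : (0 : ℝ) < M j := by exact_mod_cast hMpos j
    rw [Nat.floor_lt (mul_nonneg (Int.fract_nonneg _) h0.le)]
    calc Int.fract (c a j) * M j < 1 * M j :=
          mul_lt_mul_of_pos_right (Int.fract_lt_one _) h0
      _ = M j := one_mul _
  set T : κ → (∀ j, Fin (M j)) := fun a j => ⟨⌊Int.fract (c a j) * M j⌋₊, hlt a j⟩ with hT
  obtain ⟨v, -, hv⟩ := Finset.exists_le_card_fiber_of_mul_le_card_of_maps_to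
    (s := (Finset.univ : Finset κ)) (t := (Finset.univ : Finset (∀ j, Fin (M j)))) (f := T) (n := m)
    (fun a _ => Finset.mem_univ _)
    (by
      have : ∀ j, Nonempty (Fin (M j)) := fun j => ⟨⟨0, hMpos j⟩⟩
      exact Finset.univ_nonempty)
    (by
      rw [Finset.card_univ, Finset.card_univ, Fintype.card_pi]
      simp only [Fintype.card_fin]
      rw [mul_comm]
      exact hcard)
  obtain ⟨S, hSv, hS⟩ := Finset.exists_subset_card_eq hv
  have hST : ∀ a ∈ S, T a = v := fun a ha => (Finset.mem_filter.mp (hSv ha)).2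
  obtain ⟨a0, ha0⟩ : S.Nonempty := Finset.card_pos.mp (by omega)
  refine aligned hA (fun i a => norm_e _) S hS hm (fun a => e (-c0 a)) (fun a => norm_e _) Y ?_
  intro y hy
  set P : κ → ℝ := fun a => ∑ j, c a j * f j y with hP
  have hterm : ∀ a, e (θ y a) * e (-c0 a) = e (P a0) * e (P a - P a0) := by
    intro a
    rw [← e_add, ← e_add, hθ y hy a]
    congr 1
    simp only [hP]; ring
  have hre : ∀ a ∈ S, 1 / 2 ≤ (e (P a - P a0)).re := by
    intro a ha
    have hn : P a - P a0 - ((∑ j, (⌊c a j⌋ - ⌊c a0 j⌋) * f j y : ℤ) : ℝ) =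
        ∑ j, (Int.fract (c a j) - Int.fract (c a0 j)) * f j y := by
      simp only [hP]
      push_cast
      rw [← Finset.sum_sub_distrib, ← Finset.sum_sub_distrib]
      refine Finset.sum_congr rfl fun j _ => ?_
      have h1 := Int.floor_add_fract (c a j)
      have h2 := Int.floor_add_fract (c a0 j)
      rw [← Int.self_sub_floor, ← Int.self_sub_floor]
      ring
    apply half_le_re (∑ j, (⌊c a j⌋ - ⌊c a0 j⌋) * f j y)
    rw [hn]
    calc |∑ j, (Int.fract (c a j) - Int.fract (c a0 j)) * f j y|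
        ≤ ∑ j, |(Int.fract (c a j) - Int.fract (c a0 j)) * f j y| := Finset.abs_sum_le_sum_abs _ _
      _ ≤ ∑ _j : J, 1 / (6 * (Fintype.card J : ℝ)) := by
          refine Finset.sum_le_sum fun j _ => ?_
          have hJ : (0 : ℝ) < Fintype.card J := by
            exact_mod_cast Fintype.card_pos_iff.mpr ⟨j⟩
          have hWj : (0 : ℝ) < W j := by exact_mod_cast hW j
          have hMj : ((M j : ℕ) : ℝ) = 6 * Fintype.card J * W j := by simp [hM]
          have hM0 : (0 : ℝ) < M j := by exact_mod_cast hMpos j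
          have hfl : ⌊Int.fract (c a j) * M j⌋₊ = ⌊Int.fract (c a0 j) * M j⌋₊ := by
            have := (hST a ha).trans (hST a0 ha0).symm
            have := congrFun this j
            simpa [hT, Fin.ext_iff] using this
          have hd : |Int.fract (c a j) * M j - Int.fract (c a0 j) * M j| ≤ 1 := by
            have p1 := Nat.floor_le (mul_nonneg (Int.fract_nonneg (c a j)) hM0.le)
            have p2 := Nat.lt_floor_add_one (Int.fract (c a j) * M j)
            have p3 := Nat.floor_le (mul_nonneg (Int.fract_nonneg (c a0 j)) hM0.le)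
            have p4 := Nat.lt_floor_add_one (Int.fract (c a0 j) * M j)
            rw [hfl] at p1 p2
            rw [abs_le]; constructor <;> linarith
          have hd2 : |Int.fract (c a j) - Int.fract (c a0 j)| ≤ 1 / M j := by
            rw [le_div_iff₀ hM0]
            calc |Int.fract (c a j) - Int.fract (c a0 j)| * M j
                = |Int.fract (c a j) * M j - Int.fract (c a0 j) * M j| := by
                  rw [← sub_mul, abs_mul, abs_of_pos hM0]
              _ ≤ 1 := hd
          have hf : |((f j y : ℤ) : ℝ)| ≤ W j := by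
            have := hY y hy j
            exact_mod_cast this
          rw [abs_mul]
          calc |Int.fract (c a j) - Int.fract (c a0 j)| * |((f j y : ℤ) : ℝ)|
              ≤ 1 / M j * W j := mul_le_mul hd2 hf (abs_nonneg _) (by positivity)
            _ = 1 / (6 * (Fintype.card J : ℝ)) := by
                rw [hMj]; field_simp
      _ ≤ 1 / 6 := by
          rw [Finset.sum_const, Finset.card_univ, nsmul_eq_mul]
          rcases Nat.eq_zero_or_pos (Fintype.card J) with h0 | h0
          · rw [h0]; norm_num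
          · have : (0 : ℝ) < Fintype.card J := by exact_mod_cast h0
            apply le_of_eq; field_simp
  calc (m : ℝ) / 2 = ∑ _a ∈ S, (1 / 2 : ℝ) := by
        rw [Finset.sum_const, hS, nsmul_eq_mul]; ring
    _ ≤ ∑ a ∈ S, (e (P a - P a0)).re := Finset.sum_le_sum hre
    _ = (∑ a ∈ S, e (P a - P a0)).re := by rw [Complex.re_sum]
    _ ≤ ‖∑ a ∈ S, e (P a - P a0)‖ := Complex.re_le_norm _
    _ = ‖∑ a ∈ S, e (θ y a) * e (-c0 a)‖ := by
        rw [Finset.sum_congr rfl (fun a _ => hterm a), ← Finset.mul_sum, norm_mul, norm_e, one_mul]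

end RIPPhase
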