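import Pool.Agent.Lib.RIPPhase.Master

/-!
# Polynomial phases in one variable and the restricted isometry property
-/

set_option autoImplicit false

open Finset

namespace RIPPhase

theorem prod_cells (D w : ℕ) :
    ∏ j : Fin D, (6 * D * w ^ ((j : ℕ) + 1)) = (6 * D) ^ D * w ^ (D * (D + 1) / 2) := by
  rw [Finset.prod_mul_distrib, Finset.prod_const, Finset.card_univ, Fintype.card_fin,
    Finset.prod_pow_eq_pow_sum]
  congr 2
  rw [Fin.sum_univ_eq_sum_range (fun j => j + 1) D]
  have h := Finset.sum_range_succ' (fun j => j) D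
  have h2 := Finset.sum_range_id (D + 1)
  simp only [Nat.add_sub_cancel] at h2
  rw [h2] at h
  rw [add_zero] at h
  rw [← h, mul_comm]

/-- Polynomial phases of degree `≤ D` on the first `w` rows. -/
theorem one_var_cells {k d m D w : ℕ} (hm : 1 ≤ m) (hw1 : 1 ≤ w) (hw : w ≤ k)
    (Q : Fin d → Polynomial ℝ) (hQ : ∀ a, (Q a).natDegree ≤ D)
    (hA : RIP m (fun (y : Fin k) (a : Fin d) => e ((Q a).eval ((y : ℕ) : ℝ))))
    (hcard : m * ((6 * D) ^ D * w ^ (D * (D + 1) / 2)) ≤ d) :
    m * w ≤ 16 * k := by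
  classical
  set Y : Finset (Fin k) := Finset.univ.filter (fun y => (y : ℕ) < w) with hYdef
  have hYcard : Y.card = w := by
    rw [hYdef]
    have : (Finset.univ.filter (fun y : Fin k => (y : ℕ) < w)) =
        (Finset.univ : Finset (Fin w)).map (Fin.castLEEmb hw) := by
      ext y
      simp only [Finset.mem_filter, Finset.mem_univ, true_and, Finset.mem_map]
      constructor
      · intro hy
        exact ⟨⟨y, hy⟩, rfl⟩
      · rintro ⟨z, rfl⟩
        exact z.2
    rw [this, Finset.card_map, Finset.card_univ, Fintype.card_fin]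
  have := master (J := Fin D) hm (fun (y : Fin k) (a : Fin d) => (Q a).eval ((y : ℕ) : ℝ)) hA
    (fun j y => ((y : ℕ) : ℤ) ^ ((j : ℕ) + 1)) (fun a => (Q a).coeff 0)
    (fun a j => (Q a).coeff ((j : ℕ) + 1)) (fun j => w ^ ((j : ℕ) + 1))
    (fun j => Nat.one_le_pow _ _ hw1) Y
    (by
      intro y hy j
      have hy' : (y : ℕ) < w := (Finset.mem_filter.mp hy).2
      rw [abs_of_nonneg (by positivity)]
      push_cast
      exact pow_le_pow_left₀ (by positivity) (by exact_mod_cast hy'.le) _)
    (by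
      intro y _ a
      have h := Polynomial.eval_eq_sum_range' (Nat.lt_succ_of_le (hQ a)) ((y : ℕ) : ℝ)
      rw [h, Finset.sum_range_succ', add_comm, pow_zero, mul_one]
      congr 1
      rw [Fin.sum_univ_eq_sum_range
        (fun j => (Q a).coeff (j + 1) * ((((y : ℕ) : ℤ) ^ (j + 1) : ℤ) : ℝ)) D]
      refine Finset.sum_congr rfl fun j _ => ?_
      push_cast
      rfl)
    (by
      simp only [Fintype.card_fin]
      rw [prod_cells]
      exact hcard)
  rw [hYcard, Fintype.card_fin] at this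
  exact this

/-- **Polynomial phases.** -/
theorem one_variable {k d m D : ℕ} (hD : 1 ≤ D) (hm : 17 ≤ m) (Q : Fin d → Polynomial ℝ)
    (hQ : ∀ a, (Q a).natDegree ≤ D)
    (hA : RIP m (fun (y : Fin k) (a : Fin d) => e ((Q a).eval ((y : ℕ) : ℝ)))) :
    (d : ℝ) < m * (6 * D) ^ D * (16 * k / m + 1) ^ (D * (D + 1) / 2) := by
  by_contra hcon
  push Not at hcon
  have hm0 : (0 : ℝ) < m := by
    have : (17 : ℝ) ≤ m := by exact_mod_cast hm
    linarith
  set w : ℕ := 16 * k / m + 1 with hw
  have hwR : (w : ℝ) ≤ 16 * k / m + 1 := by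
    rw [hw]
    push_cast
    have := Nat.cast_div_le (α := ℝ) (m := 16 * k) (n := m)
    push_cast at this
    linarith
  have hcard : m * ((6 * D) ^ D * w ^ (D * (D + 1) / 2)) ≤ d := by
    have h1 : ((m * ((6 * D) ^ D * w ^ (D * (D + 1) / 2)) : ℕ) : ℝ) ≤ d := by
      push_cast
      calc (m : ℝ) * ((6 * D) ^ D * (w : ℝ) ^ (D * (D + 1) / 2))
          = m * (6 * D) ^ D * (w : ℝ) ^ (D * (D + 1) / 2) := by ring
        _ ≤ m * (6 * D) ^ D * (16 * k / m + 1) ^ (D * (D + 1) / 2) :=
            mul_le_mul_of_nonneg_left (pow_le_pow_left₀ (by positivity) hwR _) (by positivity)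
        _ ≤ d := hcon
    exact_mod_cast h1
  have hd : 0 < d := by
    have h1 : 0 < m * ((6 * D) ^ D * w ^ (D * (D + 1) / 2)) := by positivity
    omega
  have hk : 0 < k := by
    rcases Nat.eq_zero_or_pos k with h0 | h0
    · exfalso
      subst h0
      obtain ⟨s, hs, h⟩ := hA
      have hx := (h (Pi.single ⟨0, hd⟩ 1) (by
        refine (Set.ncard_le_ncard (t := {(⟨0, hd⟩ : Fin d)}) ?_ (Set.finite_singleton _)).trans ?_
        · intro a ha
          by_contra hne
          exact ha (Pi.single_eq_of_ne hne _)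
        · simp; omega)).1
      have e1 : ∑ a, ‖(Pi.single (⟨0, hd⟩ : Fin d) (1 : ℂ) : Fin d → ℂ) a‖ ^ 2 = 1 := by
        rw [Finset.sum_eq_single (⟨0, hd⟩ : Fin d)]
        · simp
        · intro b _ hb; simp [Pi.single_eq_of_ne hb]
        · simp
      rw [e1] at hx
      simp at hx
      linarith
    · exact h0
  have hwk : w ≤ k := by
    rw [hw, Nat.succ_le_iff, Nat.div_lt_iff_lt_mul (by omega)]
    nlinarith
  have h := one_var_cells (by omega) (by rw [hw]; exact Nat.le_add_left 1 _) hwk Q hQ hA hcard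
  have h2 : 16 * k < m * w := by
    rw [hw]
    exact Nat.lt_mul_div_succ (16 * k) (by omega)
  omega

end RIPPhase
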