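import Pool.Agent.Lib.RIPPhase.Master

/-!
# The restricted isometry property and average sensitivity
-/

set_option autoImplicit false

open Finset

namespace RIPPhase

variable {s : ℕ}

/-- `y` with the bits in `U` flipped. -/
def fl (U : Finset (Fin s)) (y : Fin s → Bool) : Fin s → Bool := fun i => xor (y i) (decide (i ∈ U))

theorem fl_fl (U V : Finset (Fin s)) (y : Fin s → Bool) : fl U (fl V y) = fl V (fl U y) := by
  funext i
  simp only [fl]
  rw [Bool.xor_assoc, Bool.xor_assoc, Bool.xor_comm (decide (i ∈ V))]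

theorem fl_self (U : Finset (Fin s)) (y : Fin s → Bool) : fl U (fl U y) = y := by
  funext i
  simp only [fl]
  rw [Bool.xor_assoc, Bool.xor_self, Bool.xor_false]

theorem fl_insert {i : Fin s} {U : Finset (Fin s)} (hi : i ∉ U) (y : Fin s → Bool) :
    fl (insert i U) y = fl U (fl {i} y) := by
  funext j
  simp only [fl, Finset.mem_insert, Finset.mem_singleton]
  by_cases hj : j = i
  · subst hj; simp [hi]
  · simp [hj]

theorem fl_injective (y : Fin s → Bool) : Function.Injective (fun U : Finset (Fin s) => fl U y) := by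
  intro U V h
  ext i
  have := congrFun h i
  simp only [fl] at this
  have h2 := Bool.xor_right_inj.mp this
  simpa using h2

theorem fl_empty (y : Fin s → Bool) : fl ∅ y = y := by
  funext i
  simp [fl]

theorem sum_fl (U : Finset (Fin s)) (g : (Fin s → Bool) → ℝ) : ∑ y, g (fl U y) = ∑ y, g y :=
  Fintype.sum_equiv ⟨fl U, fl U, fl_self U, fl_self U⟩ _ _ (fun _ => rfl)

/-- The mean of `f` over the subcube through `y` in the directions `T`. -/
noncomputable def E (T : Finset (Fin s)) (f : (Fin s → Bool) → ℂ) (y : Fin s → Bool) : ℂ :=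
  (∑ U ∈ T.powerset, f (fl U y)) / 2 ^ T.card

theorem E_insert {i : Fin s} {T : Finset (Fin s)} (hi : i ∉ T) (f : (Fin s → Bool) → ℂ)
    (y : Fin s → Bool) : E (insert i T) f y = (E T f y + E T f (fl {i} y)) / 2 := by
  unfold E
  rw [Finset.sum_powerset_insert hi, Finset.card_insert_of_notMem hi]
  have : ∑ U ∈ T.powerset, f (fl (insert i U) y) = ∑ U ∈ T.powerset, f (fl U (fl {i} y)) := by
    refine Finset.sum_congr rfl fun U hU => ?_
    rw [fl_insert (fun h => hi (Finset.mem_powerset.mp hU h))]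
  rw [this, pow_succ]
  field_simp

theorem E_sub (T : Finset (Fin s)) (f : (Fin s → Bool) → ℂ) (i : Fin s) (y : Fin s → Bool) :
    E T f y - E T f (fl {i} y) = E T (fun z => f z - f (fl {i} z)) y := by
  unfold E
  rw [← sub_div, ← Finset.sum_sub_distrib]
  congr 1
  refine Finset.sum_congr rfl fun U _ => ?_
  rw [fl_fl U {i} y]

theorem parallelogram (i : Fin s) (g : (Fin s → Bool) → ℂ) :
    ∑ y, ‖(g y + g (fl {i} y)) / 2‖ ^ 2 =
      ∑ y, ‖g y‖ ^ 2 - 1 / 4 * ∑ y, ‖g y - g (fl {i} y)‖ ^ 2 := by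
  have h1 : ∀ y, ‖(g y + g (fl {i} y)) / 2‖ ^ 2 =
      1 / 2 * ‖g y‖ ^ 2 + 1 / 2 * ‖g (fl {i} y)‖ ^ 2 - 1 / 4 * ‖g y - g (fl {i} y)‖ ^ 2 := by
    intro y
    have h := parallelogram_law_with_norm ℝ (g y) (g (fl {i} y))
    rw [norm_div]
    have h2 : ‖(2 : ℂ)‖ = 2 := by simp
    rw [h2, div_pow]
    nlinarith
  simp only [h1]
  rw [Finset.sum_sub_distrib, Finset.sum_add_distrib, ← Finset.mul_sum, ← Finset.mul_sum,
    ← Finset.mul_sum, sum_fl {i} (fun y => ‖g y‖ ^ 2)]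
  ring

theorem contraction (T : Finset (Fin s)) (f : (Fin s → Bool) → ℂ) :
    ∑ y, ‖E T f y‖ ^ 2 ≤ ∑ y, ‖f y‖ ^ 2 := by
  classical
  induction T using Finset.induction_on with
  | empty => simp [E, fl_empty]
  | insert i T hi ih =>
    simp only [E_insert hi]
    rw [parallelogram i (E T f)]
    have : (0 : ℝ) ≤ ∑ y, ‖E T f y - E T f (fl {i} y)‖ ^ 2 := by positivity
    linarith

/-- Poincaré in the directions `T`. -/
theorem poincare (T : Finset (Fin s)) (f : (Fin s → Bool) → ℂ) :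
    ∑ y, ‖f y‖ ^ 2 - 1 / 4 * ∑ i ∈ T, ∑ y, ‖f y - f (fl {i} y)‖ ^ 2 ≤ ∑ y, ‖E T f y‖ ^ 2 := by
  classical
  induction T using Finset.induction_on with
  | empty => simp [E, fl_empty]
  | insert i T hi ih =>
    simp only [E_insert hi]
    rw [parallelogram i (E T f), Finset.sum_insert hi]
    have h1 : ∑ y, ‖E T f y - E T f (fl {i} y)‖ ^ 2 ≤ ∑ y, ‖f y - f (fl {i} y)‖ ^ 2 := by
      simp only [E_sub]
      exact contraction T _
    linarith

/-- A set of `u` indices with at most the average weight. -/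
theorem exists_small {u : ℕ} (hu : u ≤ s) (J : Fin s → ℝ) :
    ∃ T : Finset (Fin s), T.card = u ∧ ∑ i ∈ T, J i ≤ u / s * ∑ i, J i := by
  classical
  induction hk : s - u generalizing u with
  | zero =>
    have hus : u = s := by omega
    refine ⟨Finset.univ, by simp [hus], ?_⟩
    rw [hus]
    rcases Nat.eq_zero_or_pos s with h0 | h0
    · subst h0; simp
    · have : (s : ℝ) ≠ 0 := by positivity
      rw [div_self this, one_mul]
  | succ k ih =>
    obtain ⟨T, hT, hsum⟩ := ih (u := u + 1) (by omega) (by omega)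
    have hs0 : (0 : ℝ) < s := by
      have : 0 < s := by omega
      exact_mod_cast this
    obtain ⟨i, hi, hmax⟩ := Finset.exists_max_image T J (Finset.card_pos.mp (by omega))
    refine ⟨T.erase i, by rw [Finset.card_erase_of_mem hi, hT]; rfl, ?_⟩
    have h1 : ∑ j ∈ T, J j ≤ (u + 1) * J i := by
      calc ∑ j ∈ T, J j ≤ ∑ _j ∈ T, J i := Finset.sum_le_sum fun j hj => hmax j hj
        _ = (u + 1) * J i := by rw [Finset.sum_const, hT, nsmul_eq_mul]; push_cast; ring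
    have h2 : ∑ j ∈ T.erase i, J j = ∑ j ∈ T, J j - J i := by
      rw [← Finset.sum_erase_add T J hi]; ring
    rw [h2]
    have hu1 : (0 : ℝ) < u + 1 := by positivity
    have h3 : (u + 1) * (∑ j ∈ T, J j - J i) ≤ u * ∑ j ∈ T, J j := by nlinarith
    have h4 : (u : ℝ) * ∑ j ∈ T, J j ≤ u * (((u + 1 : ℕ) : ℝ) / s * ∑ i, J i) :=
      mul_le_mul_of_nonneg_left hsum (by positivity)
    have h5 : (u + 1) * (∑ j ∈ T, J j - J i) ≤ (u + 1) * ((u : ℝ) / s * ∑ i, J i) := by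
      refine h3.trans (h4.trans (le_of_eq ?_))
      push_cast
      field_simp
    exact le_of_mul_le_mul_left h5 hu1

/-- Bessel's inequality on a subcube. -/
theorem bessel {κ : Type*} [Fintype κ] {m : ℕ} {A : (Fin s → Bool) → κ → ℂ} {t : ℝ} (ht : 0 < t)
    (h : ∀ x : κ → ℂ, {a : κ | x a ≠ 0}.ncard ≤ m →
      ∑ a, ‖x a‖ ^ 2 ≤ t ^ 2 * ∑ i, ‖∑ a, A i a * x a‖ ^ 2 ∧
        t ^ 2 * ∑ i, ‖∑ a, A i a * x a‖ ^ 2 ≤ 4 * ∑ a, ‖x a‖ ^ 2)
    (S : Finset κ) (hS : S.card ≤ m) (T : Finset (Fin s)) (y : Fin s → Bool) :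
    t ^ 2 * (2 ^ T.card * ∑ a ∈ S, ‖E T (fun z => A z a) y‖ ^ 2) ≤ 4 := by
  classical
  set w : κ → ℂ := fun a => E T (fun z => A z a) y with hw
  set x : κ → ℂ := fun a => if a ∈ S then (starRingEnd ℂ) (w a) else 0 with hx
  set W : ℝ := ∑ a ∈ S, ‖w a‖ ^ 2 with hW
  have hW0 : 0 ≤ W := by positivity
  have h2 := (h x (by
    refine le_trans ?_ hS
    rw [← Set.ncard_coe_finset]
    refine Set.ncard_le_ncard ?_ (Finset.finite_toSet S)
    intro a ha
    by_contra hne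
    apply ha
    rw [hx]
    simp only [Finset.mem_coe] at hne
    simp [hne])).2
  have e3 : ∑ a, ‖x a‖ ^ 2 = W := by
    have : ∀ a, ‖x a‖ ^ 2 = if a ∈ S then ‖w a‖ ^ 2 else 0 := by
      intro a
      rw [hx]
      by_cases ha : a ∈ S <;> simp [ha]
    simp only [this]
    rw [Finset.sum_ite_mem, Finset.univ_inter]
  have e4 : ∀ i, ∑ a, A i a * x a = ∑ a ∈ S, A i a * (starRingEnd ℂ) (w a) := by
    intro i
    have : ∀ a, A i a * x a = if a ∈ S then A i a * (starRingEnd ℂ) (w a) else 0 := by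
      intro a
      rw [hx]
      by_cases ha : a ∈ S <;> simp [ha]
    simp only [this]
    rw [Finset.sum_ite_mem, Finset.univ_inter]
  simp only [e3, e4] at h2
  set F : (Fin s → Bool) → ℂ := fun i => ∑ a ∈ S, A i a * (starRingEnd ℂ) (w a) with hF
  -- the subcube
  have h3 : ∑ U ∈ T.powerset, ‖F (fl U y)‖ ^ 2 ≤ ∑ i, ‖F i‖ ^ 2 := by
    rw [← Finset.sum_image (f := fun i => ‖F i‖ ^ 2) (g := fun U => fl U y)
      (fun U _ V _ hUV => fl_injective y hUV)]
    exact Finset.sum_le_sum_of_subset_of_nonneg (Finset.subset_univ _) (fun _ _ _ => by positivity)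
  have h4 : ∑ U ∈ T.powerset, F (fl U y) = 2 ^ T.card * (W : ℂ) := by
    simp only [hF]
    rw [Finset.sum_comm]
    have : ∀ a ∈ S, ∑ U ∈ T.powerset, A (fl U y) a * (starRingEnd ℂ) (w a) =
        2 ^ T.card * ((‖w a‖ ^ 2 : ℝ) : ℂ) := by
      intro a _
      rw [← Finset.sum_mul]
      have e5 : ∑ U ∈ T.powerset, A (fl U y) a = 2 ^ T.card * w a := by
        simp only [hw, E]
        field_simp
      rw [e5, mul_assoc, Complex.mul_conj, Complex.normSq_eq_norm_sq]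
    rw [Finset.sum_congr rfl this, ← Finset.mul_sum]
    congr 1
    rw [hW]
    push_cast
    rfl
  have h5 : ‖∑ U ∈ T.powerset, F (fl U y)‖ ^ 2 ≤ 2 ^ T.card * ∑ U ∈ T.powerset, ‖F (fl U y)‖ ^ 2 := by
    calc ‖∑ U ∈ T.powerset, F (fl U y)‖ ^ 2 ≤ (∑ U ∈ T.powerset, ‖F (fl U y)‖) ^ 2 :=
          pow_le_pow_left₀ (norm_nonneg _) (norm_sum_le _ _) 2
      _ ≤ T.powerset.card * ∑ U ∈ T.powerset, ‖F (fl U y)‖ ^ 2 := sq_sum_le_card_mul_sum_sq
      _ = 2 ^ T.card * ∑ U ∈ T.powerset, ‖F (fl U y)‖ ^ 2 := by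
          rw [Finset.card_powerset]; push_cast; rfl
  rw [h4, norm_mul, norm_pow, Complex.norm_real, Real.norm_of_nonneg hW0] at h5
  have h2' : ‖(2 : ℂ)‖ = 2 := by simp
  rw [h2'] at h5
  have hp : (0 : ℝ) < 2 ^ T.card := by positivity
  have h6 : 2 ^ T.card * W ^ 2 ≤ ∑ U ∈ T.powerset, ‖F (fl U y)‖ ^ 2 := by
    have : 2 ^ T.card * (2 ^ T.card * W ^ 2) ≤ 2 ^ T.card * ∑ U ∈ T.powerset, ‖F (fl U y)‖ ^ 2 := by
      calc 2 ^ T.card * (2 ^ T.card * W ^ 2) = (2 ^ T.card * W) ^ 2 := by ring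
        _ ≤ _ := h5
    exact le_of_mul_le_mul_left this hp
  have ht2 : 0 < t ^ 2 := by positivity
  rcases hW0.eq_or_lt with h0 | h0
  · rw [← h0]; norm_num
  · have h7 : t ^ 2 * (2 ^ T.card * W ^ 2) ≤ 4 * W :=
      (mul_le_mul_of_nonneg_left (h6.trans h3) ht2.le).trans h2
    have h8 : (t ^ 2 * (2 ^ T.card * W)) * W ≤ 4 * W := by nlinarith
    exact le_of_mul_le_mul_right h8 h0

/-- **RIP matrices have sensitive columns.** -/
theorem high_sensitivity {κ : Type*} [Fintype κ] {m u : ℕ} {A : (Fin s → Bool) → κ → ℂ}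
    (hA : RIP m A) (hu : u ≤ s) (I : ℝ) (S : Finset κ) (hS : S.card = m)
    (hI : ∀ a ∈ S, 1 / 4 * ∑ i, ∑ y, ‖A y a - A (fl {i} y) a‖ ^ 2 ≤ I * ∑ y, ‖A y a‖ ^ 2) :
    (2 : ℝ) ^ u * m * (1 - u * I / s) ≤ 4 * 2 ^ s := by
  classical
  rcases le_or_gt (1 - u * I / s) 0 with hneg | hpos
  · have h1 : (2 : ℝ) ^ u * m * (1 - u * I / s) ≤ 0 :=
      mul_nonpos_of_nonneg_of_nonpos (by positivity) hneg
    have h2 : (0 : ℝ) ≤ 4 * 2 ^ s := by positivity
    linarith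
  rcases Nat.eq_zero_or_pos m with hm | hm
  · subst hm; simp
  obtain ⟨t, ht, h⟩ := hA
  have ht2 : 0 < t ^ 2 := by positivity
  -- one column
  have hone : ∀ a0, (1 : ℝ) ≤ t ^ 2 * ∑ y, ‖A y a0‖ ^ 2 := by
    intro a0
    have hx := (h (Pi.single a0 1) (by
      refine (Set.ncard_le_ncard (t := {a0}) ?_ (Set.finite_singleton a0)).trans ?_
      · intro a ha
        by_contra hne
        exact ha (Pi.single_eq_of_ne hne _)
      · rw [Set.ncard_singleton]; exact hm)).1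
    have e1 : ∑ a, ‖(Pi.single a0 (1 : ℂ) : κ → ℂ) a‖ ^ 2 = 1 := by
      rw [Finset.sum_eq_single a0]
      · simp
      · intro b _ hb; simp [Pi.single_eq_of_ne hb]
      · simp
    have e2 : ∀ i, ∑ a, A i a * (Pi.single a0 (1 : ℂ) : κ → ℂ) a = A i a0 := by
      intro i
      rw [Finset.sum_eq_single a0]
      · simp
      · intro b _ hb; simp [Pi.single_eq_of_ne hb]
      · simp
    simpa only [e2, e1] using hx
  set N : ℝ := ∑ a ∈ S, ∑ y, ‖A y a‖ ^ 2 with hN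
  have hmN : (m : ℝ) ≤ t ^ 2 * N := by
    calc (m : ℝ) = ∑ _a ∈ S, (1 : ℝ) := by rw [Finset.sum_const, hS, nsmul_eq_mul, mul_one]
      _ ≤ ∑ a ∈ S, t ^ 2 * ∑ y, ‖A y a‖ ^ 2 := Finset.sum_le_sum fun a _ => hone a
      _ = t ^ 2 * N := by rw [hN, Finset.mul_sum]
  set J : Fin s → ℝ := fun i => 1 / 4 * ∑ a ∈ S, ∑ y, ‖A y a - A (fl {i} y) a‖ ^ 2 with hJ
  have hJsum : ∑ i, J i ≤ I * N := by
    calc ∑ i, J i = ∑ a ∈ S, 1 / 4 * ∑ i, ∑ y, ‖A y a - A (fl {i} y) a‖ ^ 2 := by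
          simp only [hJ]
          rw [← Finset.mul_sum, Finset.sum_comm, Finset.mul_sum]
      _ ≤ ∑ a ∈ S, I * ∑ y, ‖A y a‖ ^ 2 := Finset.sum_le_sum hI
      _ = I * N := by rw [hN, Finset.mul_sum]
  obtain ⟨T, hT, hTJ⟩ := exists_small hu J
  have hbes : t ^ 2 * (2 ^ T.card * ∑ a ∈ S, ∑ y, ‖E T (fun z => A z a) y‖ ^ 2) ≤ 4 * 2 ^ s := by
    have h1 : ∑ y : Fin s → Bool, t ^ 2 * (2 ^ T.card * ∑ a ∈ S, ‖E T (fun z => A z a) y‖ ^ 2) ≤
        ∑ _y : Fin s → Bool, (4 : ℝ) := Finset.sum_le_sum fun y _ => bessel ht h S hS.le T y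
    rw [Finset.sum_const, Finset.card_univ, Fintype.card_fun, Fintype.card_bool, Fintype.card_fin,
      nsmul_eq_mul] at h1
    rw [← Finset.mul_sum, ← Finset.mul_sum, Finset.sum_comm] at h1
    push_cast at h1
    linarith
  have hlow : N - ∑ i ∈ T, J i ≤ ∑ a ∈ S, ∑ y, ‖E T (fun z => A z a) y‖ ^ 2 := by
    have h1 : ∑ a ∈ S, (∑ y, ‖A y a‖ ^ 2 -
        1 / 4 * ∑ i ∈ T, ∑ y, ‖A y a - A (fl {i} y) a‖ ^ 2) ≤
        ∑ a ∈ S, ∑ y, ‖E T (fun z => A z a) y‖ ^ 2 :=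
      Finset.sum_le_sum fun a _ => poincare T (fun z => A z a)
    rw [Finset.sum_sub_distrib] at h1
    have h2 : ∑ i ∈ T, J i = ∑ a ∈ S, 1 / 4 * ∑ i ∈ T, ∑ y, ‖A y a - A (fl {i} y) a‖ ^ 2 := by
      simp only [hJ]
      rw [← Finset.mul_sum, Finset.sum_comm, Finset.mul_sum]
    rw [h2]
    exact h1
  have hN0 : 0 ≤ N := by positivity
  have hus : (0 : ℝ) ≤ u / s := by positivity
  have hfin : N * (1 - u * I / s) ≤ ∑ a ∈ S, ∑ y, ‖E T (fun z => A z a) y‖ ^ 2 := by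
    have h1 : ∑ i ∈ T, J i ≤ u / s * (I * N) := hTJ.trans (mul_le_mul_of_nonneg_left hJsum hus)
    have h2 : N * (1 - u * I / s) = N - u / s * (I * N) := by ring
    rw [h2]
    linarith
  rw [hT] at hbes
  have hp : (0 : ℝ) < 2 ^ u := by positivity
  calc (2 : ℝ) ^ u * m * (1 - u * I / s) ≤ 2 ^ u * (t ^ 2 * N) * (1 - u * I / s) := by
        apply mul_le_mul_of_nonneg_right _ hpos.le
        exact mul_le_mul_of_nonneg_left hmN hp.le
    _ = t ^ 2 * (2 ^ u * (N * (1 - u * I / s))) := by ring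
    _ ≤ t ^ 2 * (2 ^ u * ∑ a ∈ S, ∑ y, ‖E T (fun z => A z a) y‖ ^ 2) := by
        apply mul_le_mul_of_nonneg_left _ ht2.le
        exact mul_le_mul_of_nonneg_left hfin hp.le
    _ ≤ 4 * 2 ^ s := hbes

end RIPPhase
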