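import Pool.Agent.Lib.RIPPhase.Sens
import Pool.Agent.Lib.Sym40.Key
import Pool.Agent.Lib.Sym40.Num

/-!
# Incoherent systems have sensitive vectors
-/

set_option autoImplicit false

open Finset

namespace RIPPhase

variable {s : ℕ}

theorem fl_symmDiff (U V : Finset (Fin s)) (y : Fin s → Bool) :
    fl V (fl U y) = fl (symmDiff V U) y := by
  classical
  funext i
  simp only [fl, Finset.mem_symmDiff]
  by_cases h1 : i ∈ U <;> by_cases h2 : i ∈ V <;> simp [h1, h2]

theorem E_fl {T U : Finset (Fin s)} (hU : U ⊆ T) (f : (Fin s → Bool) → ℂ) (y : Fin s → Bool) :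
    E T f (fl U y) = E T f y := by
  classical
  unfold E
  congr 1
  refine Finset.sum_bij' (fun V _ => symmDiff V U) (fun V _ => symmDiff V U) ?_ ?_ ?_ ?_ ?_
  · intro V hV
    rw [Finset.mem_powerset] at hV ⊢
    intro i hi
    rcases Finset.mem_symmDiff.mp hi with h | h
    · exact hV h.1
    · exact hU h.1
  · intro V hV
    rw [Finset.mem_powerset] at hV ⊢
    intro i hi
    rcases Finset.mem_symmDiff.mp hi with h | h
    · exact hV h.1
    · exact hU h.1
  · intro V _; rw [symmDiff_symmDiff_cancel_right]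
  · intro V _; rw [symmDiff_symmDiff_cancel_right]
  · intro V _; rw [fl_symmDiff]

theorem sum_fl_C (U : Finset (Fin s)) (g : (Fin s → Bool) → ℂ) : ∑ y, g (fl U y) = ∑ y, g y :=
  Fintype.sum_equiv ⟨fl U, fl U, fl_self U, fl_self U⟩ _ _ (fun _ => rfl)

/-- `E T` is self-adjoint and idempotent. -/
theorem sum_conj_E (T : Finset (Fin s)) (f : (Fin s → Bool) → ℂ) :
    ∑ y, (starRingEnd ℂ) (E T f y) * f y = ∑ y, (starRingEnd ℂ) (E T f y) * E T f y := by
  classical
  have h1 : ∀ U ∈ T.powerset, ∑ y, (starRingEnd ℂ) (E T f y) * f (fl U y) =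
      ∑ y, (starRingEnd ℂ) (E T f y) * f y := by
    intro U hU
    rw [← sum_fl_C U (fun y => (starRingEnd ℂ) (E T f y) * f y)]
    refine Finset.sum_congr rfl fun y _ => ?_
    rw [E_fl (Finset.mem_powerset.mp hU)]
  have h2 : ∑ y, (starRingEnd ℂ) (E T f y) * E T f y =
      (∑ U ∈ T.powerset, ∑ y, (starRingEnd ℂ) (E T f y) * f (fl U y)) / 2 ^ T.card := by
    rw [Finset.sum_comm, Finset.sum_div]
    refine Finset.sum_congr rfl fun y _ => ?_
    rw [← Finset.mul_sum, mul_div_assoc]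
    rfl
  rw [h2, Finset.sum_congr rfl h1, Finset.sum_const, Finset.card_powerset, nsmul_eq_mul]
  push_cast
  field_simp

/-- The functions that are constant on the subcubes in the directions `T`. -/
noncomputable def W (T : Finset (Fin s)) : Submodule ℂ (EuclideanSpace ℂ (Fin s → Bool)) where
  carrier := {f | ∀ U ⊆ T, ∀ y, f (fl U y) = f y}
  add_mem' := by
    intro f g hf hg U hU y
    simp only [PiLp.add_apply]
    rw [hf U hU y, hg U hU y]
  zero_mem' := by intro U _ y; rfl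
  smul_mem' := by
    intro c f hf U hU y
    simp only [PiLp.smul_apply]
    rw [hf U hU y]

theorem finrank_W (T : Finset (Fin s)) : Module.finrank ℂ (W T) ≤ 2 ^ (s - T.card) := by
  classical
  let ext : ({i // i ∉ T} → Bool) → (Fin s → Bool) := fun z i => if h : i ∉ T then z ⟨i, h⟩ else false
  let L : W T →ₗ[ℂ] (({i // i ∉ T} → Bool) → ℂ) :=
    { toFun := fun f z => f.1 (ext z)
      map_add' := by intro f g; rfl
      map_smul' := by intro c f; rfl }
  have hL : Function.Injective L := by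
    intro f g h
    apply Subtype.ext
    apply PiLp.ext
    intro y
    have key : ∀ f : W T, f.1 y = f.1 (ext (fun i => y i.1)) := by
      intro f
      have h1 := f.2 (T.filter (fun i => y i = true)) (Finset.filter_subset _ _) y
      have h2 : fl (T.filter (fun i => y i = true)) y = ext (fun i => y i.1) := by
        funext i
        simp only [fl, Finset.mem_filter, ext]
        by_cases hi : i ∈ T
        · by_cases hy : y i = true <;> simp [hi, hy]
        · simp [hi]
      rw [h2] at h1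
      exact h1.symm
    have h3 : f.1 (ext (fun i => y i.1)) = g.1 (ext (fun i => y i.1)) :=
      congrFun h (fun i => y i.1)
    rw [key f, key g, h3]
  have h1 := LinearMap.finrank_le_finrank_of_injective hL
  rw [Module.finrank_fintype_fun_eq_card, Fintype.card_fun, Fintype.card_bool] at h1
  have h2 : Fintype.card {i // i ∉ T} = s - T.card := by
    rw [Fintype.card_subtype_compl, Fintype.card_fin, Fintype.card_coe]
  rwa [h2] at h1

theorem norm_E_le (T : Finset (Fin s)) (v : EuclideanSpace ℂ (Fin s → Bool)) :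
    ∑ y, ‖E T (fun z => v z) y‖ ^ 2 ≤ ‖(W T).starProjection v‖ ^ 2 := by
  classical
  set w : EuclideanSpace ℂ (Fin s → Bool) := WithLp.toLp 2 (E T (fun z => v z)) with hw
  have hwW : w ∈ W T := by
    intro U hU y
    exact E_fl hU _ y
  have hnorm : ‖w‖ ^ 2 = ∑ y, ‖E T (fun z => v z) y‖ ^ 2 := by
    rw [EuclideanSpace.norm_sq_eq]
  have hin : inner ℂ w v = ((‖w‖ ^ 2 : ℝ) : ℂ) := by
    rw [hnorm, PiLp.inner_apply]
    have h1 := sum_conj_E T (fun z => v z)
    have h2 : ∀ y, inner ℂ (w y) (v y) = (starRingEnd ℂ) (E T (fun z => v z) y) * v y := by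
      intro y
      rw [RCLike.inner_apply, mul_comm]
    simp only [h2]
    rw [h1]
    push_cast
    refine Finset.sum_congr rfl fun y _ => ?_
    rw [mul_comm, Complex.mul_conj, Complex.normSq_eq_norm_sq]
    push_cast
    rfl
  have hproj : inner ℂ w v = inner ℂ w ((W T).starProjection v) := by
    have h1 := (W T).inner_starProjection_left_eq_right w v
    rw [← h1, Submodule.starProjection_eq_self_iff.mpr hwW]
  have h3 : ‖w‖ ^ 2 ≤ ‖w‖ * ‖(W T).starProjection v‖ := by
    have h4 := norm_inner_le_norm (𝕜 := ℂ) w ((W T).starProjection v)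
    rw [← hproj, hin, Complex.norm_real, Real.norm_of_nonneg (by positivity)] at h4
    exact h4
  rw [← hnorm]
  rcases (norm_nonneg w).eq_or_lt with h0 | h0
  · have h5 : ‖w‖ ^ 2 = 0 := by rw [← h0]; norm_num
    rw [h5]; positivity
  · have h5 : ‖w‖ ≤ ‖(W T).starProjection v‖ := by
      rw [sq] at h3
      exact le_of_mul_le_mul_left h3 h0
    exact pow_le_pow_left₀ (norm_nonneg _) h5 2

/-- **Incoherent systems have sensitive vectors.** -/
theorem sensitivity40 {N u : ℕ} (v : Fin N → EuclideanSpace ℂ (Fin s → Bool))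
    (hv : ∀ i, ‖v i‖ = 1) {μ : ℝ} (h0 : 0 < μ) (h1 : μ ≤ 1 / 16)
    (hμ : ∀ i j, i ≠ j → ‖inner ℂ (v i) (v j)‖ ≤ μ) (I : ℝ)
    (hI : 1 / 4 * ∑ i, ∑ j, ∑ y, ‖v i y - v i (fl {j} y)‖ ^ 2 ≤ I * N) (hu : u ≤ s)
    (huI : 4 * u * I ≤ s) :
    (N : ℝ) ≤ 2 * ((1 / μ) ^ 2 * Real.exp (128 * ((2 ^ (s - u) : ℕ) : ℝ) * μ ^ 2 * Real.log (1 / μ))) := by
  classical
  set J : Fin s → ℝ := fun j => 1 / 4 * ∑ i, ∑ y, ‖v i y - v i (fl {j} y)‖ ^ 2 with hJ
  have hJsum : ∑ j, J j ≤ I * N := by
    refine le_trans (le_of_eq ?_) hI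
    simp only [hJ]
    rw [← Finset.mul_sum, Finset.sum_comm]
  obtain ⟨T, hT, hTJ⟩ := exists_small hu J
  have hus : (0 : ℝ) ≤ u / s := by positivity
  have hN0 : (0 : ℝ) ≤ N := Nat.cast_nonneg _
  have hTJ' : ∑ j ∈ T, J j ≤ N / 4 := by
    refine hTJ.trans ((mul_le_mul_of_nonneg_left hJsum hus).trans ?_)
    rcases Nat.eq_zero_or_pos s with hs | hs
    · subst hs
      simp only [Nat.cast_zero, div_zero, zero_mul]
      positivity
    · have hs0 : (0 : ℝ) < s := by exact_mod_cast hs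
      have h2 : (u : ℝ) / s * (I * N) = (4 * u * I) / s * (N / 4) := by ring
      rw [h2]
      have h3 : (4 * (u : ℝ) * I) / s ≤ 1 := by
        rw [div_le_one hs0]; exact huI
      calc (4 * (u : ℝ) * I) / s * (N / 4) ≤ 1 * (N / 4) :=
            mul_le_mul_of_nonneg_right h3 (by positivity)
        _ = N / 4 := one_mul _
  have hsq : ∀ i, ∑ y, ‖v i y‖ ^ 2 = 1 := by
    intro i
    rw [← EuclideanSpace.norm_sq_eq, hv i]; norm_num
  set p : Fin N → ℝ := fun i => ‖(W T).starProjection (v i)‖ ^ 2 with hp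
  have hp1 : ∀ i, p i ≤ 1 := by
    intro i
    have h2 := (W T).norm_starProjection_apply_le (v i)
    rw [hv i] at h2
    calc p i ≤ 1 ^ 2 := pow_le_pow_left₀ (norm_nonneg _) h2 2
      _ = 1 := one_pow 2
  have hsum : 3 / 4 * (N : ℝ) ≤ ∑ i, p i := by
    have h2 : ∑ i : Fin N, (∑ y, ‖v i y‖ ^ 2 -
        1 / 4 * ∑ j ∈ T, ∑ y, ‖v i y - v i (fl {j} y)‖ ^ 2) ≤ ∑ i, p i :=
      Finset.sum_le_sum fun i _ =>
        (poincare T (fun z => v i z)).trans (norm_E_le T (v i))
    have h3 : ∑ j ∈ T, J j =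
        ∑ i : Fin N, 1 / 4 * ∑ j ∈ T, ∑ y, ‖v i y - v i (fl {j} y)‖ ^ 2 := by
      simp only [hJ]
      rw [← Finset.mul_sum, Finset.sum_comm, Finset.mul_sum]
    rw [Finset.sum_sub_distrib, ← h3] at h2
    simp only [hsq, Finset.sum_const, Finset.card_univ, Fintype.card_fin, nsmul_eq_mul,
      mul_one] at h2
    linarith
  set G : Finset (Fin N) := Finset.univ.filter (fun i => 1 / 2 ≤ p i) with hG
  have hGc : (N : ℝ) / 2 ≤ G.card := by
    have h2 : ∑ i, p i ≤ ∑ i, ((if i ∈ G then (1 / 2 : ℝ) else 0) + 1 / 2) := by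
      refine Finset.sum_le_sum fun i _ => ?_
      by_cases hi : 1 / 2 ≤ p i
      · have : i ∈ G := Finset.mem_filter.mpr ⟨Finset.mem_univ _, hi⟩
        rw [if_pos this]; linarith [hp1 i]
      · have : i ∉ G := by rw [hG]; simp only [Finset.mem_filter, Finset.mem_univ, true_and]; exact hi
        rw [if_neg this]; linarith [not_le.mp hi]
    rw [Finset.sum_add_distrib, Finset.sum_ite_mem, Finset.univ_inter] at h2
    simp only [Finset.sum_const, Finset.card_univ, Fintype.card_fin, nsmul_eq_mul] at h2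
    linarith
  obtain ⟨k, hk1, hk2⟩ := Pool.Agent.Lib.Sym40.num h0 h1 (r := 2 ^ (s - u)) (Nat.one_le_two_pow)
  have hc : (0 : ℝ) < (1 - μ) / 2 := by linarith
  have hkey := Pool.Agent.Lib.Sym40.key_lemma (𝕜 := ℂ) (fun i : {i // i ∈ G} => v i.1) (W T) k
    (2 ^ (s - u)) (by rw [← hT]; exact finrank_W T) (μ := μ) (c := (1 - μ) / 2) h0.le hc
    (fun i => hv i.1) (fun i j hij => hμ i.1 j.1 (fun h => hij (Subtype.ext h)))
    (fun i => by
      have h2 : 1 / 2 ≤ p i.1 := (Finset.mem_filter.mp i.2).2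
      have h3 : (1 - μ) / 2 ≤ 1 / 2 := by linarith
      exact h3.trans h2) hk1
  rw [Fintype.card_coe] at hkey
  have hck : (0 : ℝ) < ((1 - μ) / 2) ^ (2 * k) := pow_pos hc _
  have hG2 : (G.card : ℝ) ≤
      (1 / μ) ^ 2 * Real.exp (128 * ((2 ^ (s - u) : ℕ) : ℝ) * μ ^ 2 * Real.log (1 / μ)) :=
    ((le_div_iff₀ hck).mpr hkey).trans hk2
  linarith

end RIPPhase
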